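import Mathlib

namespace Pool.Agent.Work.MP_70ae0e_co

/-- Barycentric coordinates `(i, j, k)`. -/
abbrev Cell : Type := ℤ × ℤ × ℤ

/-- The standard unit vectors. -/
def e₁ : Cell := (1, 0, 0)
/-- The standard unit vectors. -/
def e₂ : Cell := (0, 1, 0)
/-- The standard unit vectors. -/
def e₃ : Cell := (0, 0, 1)

/-- The coordinate sum. -/
def csum (c : Cell) : ℤ := c.1 + c.2.1 + c.2.2

/-- The set of cells of the `(a, b)`-benzel. -/
def benzelSet (a b : ℤ) : Set Cell :=
  {c | csum c = 1 ∧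
    -(a - 1) ≤ c.2.1 - c.1 ∧ c.2.1 - c.1 ≤ b - 1 ∧
    -(a - 1) ≤ c.2.2 - c.2.1 ∧ c.2.2 - c.2.1 ≤ b - 1 ∧
    -(a - 1) ≤ c.1 - c.2.2 ∧ c.1 - c.2.2 ≤ b - 1}

theorem benzelSet_finite (a b : ℤ) : (benzelSet a b).Finite := by
  refine ((Set.finite_Icc (-(a + b)) (a + b)).prod
    ((Set.finite_Icc (-(a + b)) (a + b)).prod (Set.finite_Icc (-(a + b)) (a + b)))).subset ?_
  rintro ⟨i, j, k⟩ h
  simp only [benzelSet, csum, Set.mem_ofPred_eq] at h
  simp only [Set.mem_prod, Set.mem_Icc]
  omega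

/-- The `(a, b)`-benzel as a finite set of cells. -/
noncomputable def benzel (a b : ℤ) : Finset Cell := (benzelSet_finite a b).toFinset

/-- A translate of the right stone. -/
def IsRightStone (t : Finset Cell) : Prop :=
  ∃ c : Cell, csum c = 0 ∧ t = {c + e₁, c + e₂, c + e₃}

/-- A translate of the left stone. -/
def IsLeftStone (t : Finset Cell) : Prop :=
  ∃ c : Cell, csum c = 2 ∧ t = {c - e₁, c - e₂, c - e₃}

/-- A translate of one of the three bones. -/
def IsBone (t : Finset Cell) : Prop :=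
  ∃ c d : Cell, csum c = 1 ∧ (d = e₁ - e₂ ∨ d = e₂ - e₃ ∨ d = e₃ - e₁) ∧
    t = {c, c + d, c + 2 • d}

/-- A stone, right or left. -/
def IsStone (t : Finset Cell) : Prop := IsRightStone t ∨ IsLeftStone t

/-- A translate of one of the five prototiles. -/
def IsTile (t : Finset Cell) : Prop := IsStone t ∨ IsBone t

open Classical in
/-- `T(a, b; 3)`: the sum of `3 ^ (number of stones)` over the partitions of the `(a, b)`-benzel
all of whose parts are tiles. -/
noncomputable def T3 (a b : ℤ) : ℤ :=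
  ∑ τ : Finpartition (benzel a b) with (∀ t ∈ τ.parts, IsTile t),
    3 ^ (τ.parts.filter IsStone).card

end Pool.Agent.Work.MP_70ae0e_co
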