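import Pool.Agent.Work.MP_70ae0e_co.Defs
import Mathlib

-- merged part: Pool.Agent.Work.MP_70ae0e_co.Trans
section
-- merged part: Pool.Agent.Work.MP_70ae0e_co.Abs
section
/-! Abstract tilings: every cell is one of the three cells of a standard right stone
(a supercell), and a tile is a triple of supercells. -/

set_option linter.unusedTactic false
set_option linter.unreachableTactic false
set_option linter.unusedSimpArgs false

namespace Pool.Agent.Work.MP_70ae0e_co

open Finset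

abbrev Pt : Type := ℤ × ℤ
abbrev ATile : Type := Pt × Pt × Pt

def cX (M : ℤ) (S : Pt) : Cell := (M - 2 * S.1 - S.2 + 1, S.1 - S.2, 2 * S.2 + S.1 - M)
def cY (M : ℤ) (S : Pt) : Cell := (M - 2 * S.1 - S.2, S.1 - S.2, 2 * S.2 + S.1 - M + 1)
def cZ (M : ℤ) (S : Pt) : Cell := (M - 2 * S.1 - S.2, S.1 - S.2 + 1, 2 * S.2 + S.1 - M)

def cells (M : ℤ) (t : ATile) : Finset Cell := {cX M t.1, cY M t.2.1, cZ M t.2.2}

/-- `t = (a, a + (p, q), a + (r, s))`. -/
def Sh (t : ATile) (p q r s : ℤ) : Prop :=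
  t.2.1.1 = t.1.1 + p ∧ t.2.1.2 = t.1.2 + q ∧ t.2.2.1 = t.1.1 + r ∧ t.2.2.2 = t.1.2 + s

def LPat (t : ATile) : Prop := Sh t 0 (-1) 0 0 ∨ Sh t (-1) 0 (-1) 0 ∨ Sh t 0 0 (-1) 1
def RPat (t : ATile) : Prop := Sh t 0 0 0 0 ∨ Sh t 0 (-1) (-1) 0 ∨ Sh t (-1) 0 (-1) 1
def StonePat (t : ATile) : Prop := RPat t ∨ LPat t
def BonePat (t : ATile) : Prop :=
  Sh t 1 (-1) 0 0 ∨ Sh t (-1) 0 0 0 ∨ Sh t 0 (-1) 0 (-1) ∨ Sh t (-1) 1 (-1) 1 ∨
    Sh t 0 0 (-1) 0 ∨ Sh t 0 0 0 1 ∨
    Sh t (-1) 0 (-2) 1 ∨ Sh t 0 (-1) (-1) 1 ∨ Sh t (-1) (-1) (-1) 0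
def Pat (t : ATile) : Prop := StonePat t ∨ BonePat t

instance (t : ATile) (p q r s : ℤ) : Decidable (Sh t p q r s) := by unfold Sh; infer_instance
instance (t : ATile) : Decidable (LPat t) := by unfold LPat; infer_instance
instance (t : ATile) : Decidable (RPat t) := by unfold RPat; infer_instance
instance (t : ATile) : Decidable (StonePat t) := by unfold StonePat; infer_instance

theorem cell_cases (M : ℤ) (c : Cell) (h : csum c = 1) :
    (∃ S, c = cX M S) ∨ (∃ S, c = cY M S) ∨ (∃ S, c = cZ M S) := by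
  obtain ⟨i, j, k⟩ := c
  simp only [csum] at h
  have h3 : (i - j - M) % 3 = 1 ∨ (i - j - M) % 3 = 0 ∨ (i - j - M) % 3 = 2 := by omega
  rcases h3 with h3 | h3 | h3
  · refine Or.inl ⟨((M + 1 - i + j) / 3, (M + 1 - i + j) / 3 - j), ?_⟩
    simp only [cX, Prod.mk.injEq]; omega
  · refine Or.inr (Or.inl ⟨((M - i + j) / 3, (M - i + j) / 3 - j), ?_⟩)
    simp only [cY, Prod.mk.injEq]; omega
  · refine Or.inr (Or.inr ⟨((M - 1 - i + j) / 3, (M - 1 - i + j) / 3 - j + 1), ?_⟩)
    simp only [cZ, Prod.mk.injEq]; omega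

theorem cX_mem {M : ℤ} {a : Pt} {t : ATile} : cX M a ∈ cells M t ↔ t.1 = a := by
  obtain ⟨⟨a1, a2⟩, ⟨b1, b2⟩, ⟨c1, c2⟩⟩ := t
  obtain ⟨x, y⟩ := a
  simp only [cells, cX, cY, cZ, mem_insert, mem_singleton, Prod.mk.injEq]
  omega

theorem cY_mem {M : ℤ} {a : Pt} {t : ATile} : cY M a ∈ cells M t ↔ t.2.1 = a := by
  obtain ⟨⟨a1, a2⟩, ⟨b1, b2⟩, ⟨c1, c2⟩⟩ := t
  obtain ⟨x, y⟩ := a
  simp only [cells, cX, cY, cZ, mem_insert, mem_singleton, Prod.mk.injEq]
  omega

theorem cZ_mem {M : ℤ} {a : Pt} {t : ATile} : cZ M a ∈ cells M t ↔ t.2.2 = a := by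
  obtain ⟨⟨a1, a2⟩, ⟨b1, b2⟩, ⟨c1, c2⟩⟩ := t
  obtain ⟨x, y⟩ := a
  simp only [cells, cX, cY, cZ, mem_insert, mem_singleton, Prod.mk.injEq]
  omega

theorem cells_injective (M : ℤ) : Function.Injective (cells M) := by
  intro t t' h
  have h1 : t'.1 = t.1 := cX_mem.1 (h ▸ cX_mem.2 rfl)
  have h2 : t'.2.1 = t.2.1 := cY_mem.1 (h ▸ cY_mem.2 rfl)
  have h3 : t'.2.2 = t.2.2 := cZ_mem.1 (h ▸ cZ_mem.2 rfl)
  exact Prod.ext h1.symm (Prod.ext h2.symm h3.symm)

theorem trip_eq {a b c a' b' c' : Cell}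
    (h : (a = a' ∧ b = b' ∧ c = c') ∨ (a = a' ∧ b = c' ∧ c = b') ∨ (a = b' ∧ b = a' ∧ c = c') ∨
      (a = b' ∧ b = c' ∧ c = a') ∨ (a = c' ∧ b = a' ∧ c = b') ∨ (a = c' ∧ b = b' ∧ c = a')) :
    ({a, b, c} : Finset Cell) = {a', b', c'} := by
  ext x
  simp only [mem_insert, mem_singleton]
  rcases h with ⟨rfl, rfl, rfl⟩ | ⟨rfl, rfl, rfl⟩ | ⟨rfl, rfl, rfl⟩ | ⟨rfl, rfl, rfl⟩ |
    ⟨rfl, rfl, rfl⟩ | ⟨rfl, rfl, rfl⟩ <;> tauto

theorem right_pat (M : ℤ) {s : Finset Cell} (h : IsRightStone s) :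
    ∃ t, RPat t ∧ cells M t = s := by
  obtain ⟨⟨i, j, k⟩, hc, rfl⟩ := h
  simp only [csum] at hc
  rcases cell_cases M (i + 1, j, k) (by simp only [csum]; omega) with
    ⟨⟨x, y⟩, h⟩ | ⟨⟨x, y⟩, h⟩ | ⟨⟨x, y⟩, h⟩
  · refine ⟨((x, y), (x, y), (x, y)), by simp [RPat, Sh], trip_eq ?_⟩
    simp only [cX, cY, cZ, e₁, e₂, e₃, Prod.mk.injEq, Prod.mk_add_mk] at h ⊢
    first
      | (left; omega) | (right; left; omega) | (right; right; left; omega)
      | (right; right; right; left; omega) | (right; right; right; right; left; omega)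
      | (right; right; right; right; right; omega)
  · refine ⟨((x + 1, y), (x, y), (x, y + 1)), by simp [RPat, Sh], trip_eq ?_⟩
    simp only [cX, cY, cZ, e₁, e₂, e₃, Prod.mk.injEq, Prod.mk_add_mk] at h ⊢
    first
      | (left; omega) | (right; left; omega) | (right; right; left; omega)
      | (right; right; right; left; omega) | (right; right; right; right; left; omega)
      | (right; right; right; right; right; omega)
  · refine ⟨((x + 1, y), (x + 1, y - 1), (x, y)), by simp [RPat, Sh]; omega, trip_eq ?_⟩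
    simp only [cX, cY, cZ, e₁, e₂, e₃, Prod.mk.injEq, Prod.mk_add_mk] at h ⊢
    first
      | (left; omega) | (right; left; omega) | (right; right; left; omega)
      | (right; right; right; left; omega) | (right; right; right; right; left; omega)
      | (right; right; right; right; right; omega)

theorem left_pat (M : ℤ) {s : Finset Cell} (h : IsLeftStone s) :
    ∃ t, LPat t ∧ cells M t = s := by
  obtain ⟨⟨i, j, k⟩, hc, rfl⟩ := h
  simp only [csum] at hc
  rcases cell_cases M (i - 1, j, k) (by simp only [csum]; omega) with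
    ⟨⟨x, y⟩, h⟩ | ⟨⟨x, y⟩, h⟩ | ⟨⟨x, y⟩, h⟩
  · refine ⟨((x, y), (x - 1, y), (x - 1, y)), by simp [LPat, Sh]; omega, trip_eq ?_⟩
    simp only [cX, cY, cZ, e₁, e₂, e₃, Prod.mk.injEq, Prod.mk_sub_mk] at h ⊢
    first
      | (left; omega) | (right; left; omega) | (right; right; left; omega)
      | (right; right; right; left; omega) | (right; right; right; right; left; omega)
      | (right; right; right; right; right; omega)
  · refine ⟨((x, y), (x, y), (x - 1, y + 1)), by simp [LPat, Sh]; omega, trip_eq ?_⟩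
    simp only [cX, cY, cZ, e₁, e₂, e₃, Prod.mk.injEq, Prod.mk_sub_mk] at h ⊢
    first
      | (left; omega) | (right; left; omega) | (right; right; left; omega)
      | (right; right; right; left; omega) | (right; right; right; right; left; omega)
      | (right; right; right; right; right; omega)
  · refine ⟨((x, y), (x, y - 1), (x, y)), by simp [LPat, Sh]; omega, trip_eq ?_⟩
    simp only [cX, cY, cZ, e₁, e₂, e₃, Prod.mk.injEq, Prod.mk_sub_mk] at h ⊢
    first
      | (left; omega) | (right; left; omega) | (right; right; left; omega)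
      | (right; right; right; left; omega) | (right; right; right; right; left; omega)
      | (right; right; right; right; right; omega)

theorem bone_pat (M : ℤ) {s : Finset Cell} (h : IsBone s) :
    ∃ t, BonePat t ∧ cells M t = s := by
  obtain ⟨⟨i, j, k⟩, d, hc, hd, rfl⟩ := h
  rw [two_smul]
  rcases cell_cases M (i, j, k) hc with ⟨⟨x, y⟩, h⟩ | ⟨⟨x, y⟩, h⟩ | ⟨⟨x, y⟩, h⟩ <;>
    rcases hd with rfl | rfl | rfl
  · refine ⟨((x, y), (x - 1, y), (x - 2, y + 1)), by simp [BonePat, Sh] <;> omega, trip_eq ?_⟩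
    simp only [cX, cY, cZ, e₁, e₂, e₃, Prod.mk.injEq, Prod.mk_sub_mk, Prod.mk_add_mk,
      true_and, and_true] at h ⊢
    first
      | (left; omega) | (right; left; omega) | (right; right; left; omega)
      | (right; right; right; left; omega) | (right; right; right; right; left; omega)
      | (right; right; right; right; right; omega)
  · refine ⟨((x, y), (x, y - 1), (x, y - 1)), by simp [BonePat, Sh] <;> omega, trip_eq ?_⟩
    simp only [cX, cY, cZ, e₁, e₂, e₃, Prod.mk.injEq, Prod.mk_sub_mk, Prod.mk_add_mk,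
      true_and, and_true] at h ⊢
    first
      | (left; omega) | (right; left; omega) | (right; right; left; omega)
      | (right; right; right; left; omega) | (right; right; right; right; left; omega)
      | (right; right; right; right; right; omega)
  · refine ⟨((x, y), (x, y), (x, y + 1)), by simp [BonePat, Sh] <;> omega, trip_eq ?_⟩
    simp only [cX, cY, cZ, e₁, e₂, e₃, Prod.mk.injEq, Prod.mk_sub_mk, Prod.mk_add_mk,
      true_and, and_true] at h ⊢
    first
      | (left; omega) | (right; left; omega) | (right; right; left; omega)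
      | (right; right; right; left; omega) | (right; right; right; right; left; omega)
      | (right; right; right; right; right; omega)
  · refine ⟨((x - 1, y + 1), (x, y), (x - 1, y + 1)), by simp [BonePat, Sh] <;> omega, trip_eq ?_⟩
    simp only [cX, cY, cZ, e₁, e₂, e₃, Prod.mk.injEq, Prod.mk_sub_mk, Prod.mk_add_mk,
      true_and, and_true] at h ⊢
    first
      | (left; omega) | (right; left; omega) | (right; right; left; omega)
      | (right; right; right; left; omega) | (right; right; right; right; left; omega)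
      | (right; right; right; right; right; omega)
  · refine ⟨((x + 1, y - 1), (x, y), (x, y)), by simp [BonePat, Sh] <;> omega, trip_eq ?_⟩
    simp only [cX, cY, cZ, e₁, e₂, e₃, Prod.mk.injEq, Prod.mk_sub_mk, Prod.mk_add_mk,
      true_and, and_true] at h ⊢
    first
      | (left; omega) | (right; left; omega) | (right; right; left; omega)
      | (right; right; right; left; omega) | (right; right; right; right; left; omega)
      | (right; right; right; right; right; omega)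
  · refine ⟨((x + 1, y + 1), (x, y), (x, y + 1)), by simp [BonePat, Sh] <;> omega, trip_eq ?_⟩
    simp only [cX, cY, cZ, e₁, e₂, e₃, Prod.mk.injEq, Prod.mk_sub_mk, Prod.mk_add_mk,
      true_and, and_true] at h ⊢
    first
      | (left; omega) | (right; left; omega) | (right; right; left; omega)
      | (right; right; right; left; omega) | (right; right; right; right; left; omega)
      | (right; right; right; right; right; omega)
  · refine ⟨((x, y), (x - 1, y), (x, y)), by simp [BonePat, Sh] <;> omega, trip_eq ?_⟩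
    simp only [cX, cY, cZ, e₁, e₂, e₃, Prod.mk.injEq, Prod.mk_sub_mk, Prod.mk_add_mk,
      true_and, and_true] at h ⊢
    first
      | (left; omega) | (right; left; omega) | (right; right; left; omega)
      | (right; right; right; left; omega) | (right; right; right; right; left; omega)
      | (right; right; right; right; right; omega)
  · refine ⟨((x + 1, y - 1), (x + 1, y - 2), (x, y)), by simp [BonePat, Sh] <;> omega, trip_eq ?_⟩
    simp only [cX, cY, cZ, e₁, e₂, e₃, Prod.mk.injEq, Prod.mk_sub_mk, Prod.mk_add_mk,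
      true_and, and_true] at h ⊢
    first
      | (left; omega) | (right; left; omega) | (right; right; left; omega)
      | (right; right; right; left; omega) | (right; right; right; right; left; omega)
      | (right; right; right; right; right; omega)
  · refine ⟨((x + 1, y), (x + 1, y), (x, y)), by simp [BonePat, Sh] <;> omega, trip_eq ?_⟩
    simp only [cX, cY, cZ, e₁, e₂, e₃, Prod.mk.injEq, Prod.mk_sub_mk, Prod.mk_add_mk,
      true_and, and_true] at h ⊢
    first
      | (left; omega) | (right; left; omega) | (right; right; left; omega)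
      | (right; right; right; left; omega) | (right; right; right; right; left; omega)
      | (right; right; right; right; right; omega)

theorem pat_right (M : ℤ) {t : ATile} (h : RPat t) : IsRightStone (cells M t) := by
  obtain ⟨⟨a1, a2⟩, ⟨b1, b2⟩, ⟨c1, c2⟩⟩ := t
  simp only [RPat, Sh] at h
  rcases h with h | h | h
  · refine ⟨cX M (a1, a2) - e₁, by simp [csum, cX, e₁, e₂, e₃]; omega, trip_eq ?_⟩
    simp only [cX, cY, cZ, e₁, e₂, e₃, Prod.mk.injEq, Prod.mk_sub_mk, Prod.mk_add_mk,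
      true_and, and_true]
    first
      | (left; omega) | (right; left; omega) | (right; right; left; omega)
      | (right; right; right; left; omega) | (right; right; right; right; left; omega)
      | (right; right; right; right; right; omega)
  · refine ⟨cX M (a1, a2) - e₃, by simp [csum, cX, e₁, e₂, e₃]; omega, trip_eq ?_⟩
    simp only [cX, cY, cZ, e₁, e₂, e₃, Prod.mk.injEq, Prod.mk_sub_mk, Prod.mk_add_mk,
      true_and, and_true]
    first
      | (left; omega) | (right; left; omega) | (right; right; left; omega)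
      | (right; right; right; left; omega) | (right; right; right; right; left; omega)
      | (right; right; right; right; right; omega)
  · refine ⟨cX M (a1, a2) - e₂, by simp [csum, cX, e₁, e₂, e₃]; omega, trip_eq ?_⟩
    simp only [cX, cY, cZ, e₁, e₂, e₃, Prod.mk.injEq, Prod.mk_sub_mk, Prod.mk_add_mk,
      true_and, and_true]
    first
      | (left; omega) | (right; left; omega) | (right; right; left; omega)
      | (right; right; right; left; omega) | (right; right; right; right; left; omega)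
      | (right; right; right; right; right; omega)

theorem pat_left (M : ℤ) {t : ATile} (h : LPat t) : IsLeftStone (cells M t) := by
  obtain ⟨⟨a1, a2⟩, ⟨b1, b2⟩, ⟨c1, c2⟩⟩ := t
  simp only [LPat, Sh] at h
  rcases h with h | h | h
  · refine ⟨cX M (a1, a2) + e₂, by simp [csum, cX, e₁, e₂, e₃]; omega, trip_eq ?_⟩
    simp only [cX, cY, cZ, e₁, e₂, e₃, Prod.mk.injEq, Prod.mk_sub_mk, Prod.mk_add_mk,
      true_and, and_true]
    first
      | (left; omega) | (right; left; omega) | (right; right; left; omega)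
      | (right; right; right; left; omega) | (right; right; right; right; left; omega)
      | (right; right; right; right; right; omega)
  · refine ⟨cX M (a1, a2) + e₁, by simp [csum, cX, e₁, e₂, e₃]; omega, trip_eq ?_⟩
    simp only [cX, cY, cZ, e₁, e₂, e₃, Prod.mk.injEq, Prod.mk_sub_mk, Prod.mk_add_mk,
      true_and, and_true]
    first
      | (left; omega) | (right; left; omega) | (right; right; left; omega)
      | (right; right; right; left; omega) | (right; right; right; right; left; omega)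
      | (right; right; right; right; right; omega)
  · refine ⟨cX M (a1, a2) + e₃, by simp [csum, cX, e₁, e₂, e₃]; omega, trip_eq ?_⟩
    simp only [cX, cY, cZ, e₁, e₂, e₃, Prod.mk.injEq, Prod.mk_sub_mk, Prod.mk_add_mk,
      true_and, and_true]
    first
      | (left; omega) | (right; left; omega) | (right; right; left; omega)
      | (right; right; right; left; omega) | (right; right; right; right; left; omega)
      | (right; right; right; right; right; omega)

theorem pat_bone (M : ℤ) {t : ATile} (h : BonePat t) : IsBone (cells M t) := by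
  obtain ⟨⟨a1, a2⟩, ⟨b1, b2⟩, ⟨c1, c2⟩⟩ := t
  simp only [BonePat, Sh] at h
  rcases h with h | h | h | h | h | h | h | h | h
  · refine ⟨cY M (b1, b2), e₁ - e₂, by simp only [csum, cX, cY, cZ]; omega, by simp, ?_⟩
    rw [two_smul]
    refine trip_eq ?_
    simp only [cX, cY, cZ, e₁, e₂, e₃, Prod.mk.injEq, Prod.mk_sub_mk, Prod.mk_add_mk,
      true_and, and_true]
    first
      | (left; omega) | (right; left; omega) | (right; right; left; omega)
      | (right; right; right; left; omega) | (right; right; right; right; left; omega)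
      | (right; right; right; right; right; omega)
  · refine ⟨cZ M (c1, c2), e₁ - e₂, by simp only [csum, cX, cY, cZ]; omega, by simp, ?_⟩
    rw [two_smul]
    refine trip_eq ?_
    simp only [cX, cY, cZ, e₁, e₂, e₃, Prod.mk.injEq, Prod.mk_sub_mk, Prod.mk_add_mk,
      true_and, and_true]
    first
      | (left; omega) | (right; left; omega) | (right; right; left; omega)
      | (right; right; right; left; omega) | (right; right; right; right; left; omega)
      | (right; right; right; right; right; omega)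
  · refine ⟨cX M (a1, a2), e₂ - e₃, by simp only [csum, cX, cY, cZ]; omega, by simp, ?_⟩
    rw [two_smul]
    refine trip_eq ?_
    simp only [cX, cY, cZ, e₁, e₂, e₃, Prod.mk.injEq, Prod.mk_sub_mk, Prod.mk_add_mk,
      true_and, and_true]
    first
      | (left; omega) | (right; left; omega) | (right; right; left; omega)
      | (right; right; right; left; omega) | (right; right; right; right; left; omega)
      | (right; right; right; right; right; omega)
  · refine ⟨cY M (b1, b2), e₂ - e₃, by simp only [csum, cX, cY, cZ]; omega, by simp, ?_⟩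
    rw [two_smul]
    refine trip_eq ?_
    simp only [cX, cY, cZ, e₁, e₂, e₃, Prod.mk.injEq, Prod.mk_sub_mk, Prod.mk_add_mk,
      true_and, and_true]
    first
      | (left; omega) | (right; left; omega) | (right; right; left; omega)
      | (right; right; right; left; omega) | (right; right; right; right; left; omega)
      | (right; right; right; right; right; omega)
  · refine ⟨cZ M (c1, c2), e₃ - e₁, by simp only [csum, cX, cY, cZ]; omega, by simp, ?_⟩
    rw [two_smul]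
    refine trip_eq ?_
    simp only [cX, cY, cZ, e₁, e₂, e₃, Prod.mk.injEq, Prod.mk_sub_mk, Prod.mk_add_mk,
      true_and, and_true]
    first
      | (left; omega) | (right; left; omega) | (right; right; left; omega)
      | (right; right; right; left; omega) | (right; right; right; right; left; omega)
      | (right; right; right; right; right; omega)
  · refine ⟨cX M (a1, a2), e₃ - e₁, by simp only [csum, cX, cY, cZ]; omega, by simp, ?_⟩
    rw [two_smul]
    refine trip_eq ?_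
    simp only [cX, cY, cZ, e₁, e₂, e₃, Prod.mk.injEq, Prod.mk_sub_mk, Prod.mk_add_mk,
      true_and, and_true]
    first
      | (left; omega) | (right; left; omega) | (right; right; left; omega)
      | (right; right; right; left; omega) | (right; right; right; right; left; omega)
      | (right; right; right; right; right; omega)
  · refine ⟨cX M (a1, a2), e₁ - e₂, by simp only [csum, cX, cY, cZ]; omega, by simp, ?_⟩
    rw [two_smul]
    refine trip_eq ?_
    simp only [cX, cY, cZ, e₁, e₂, e₃, Prod.mk.injEq, Prod.mk_sub_mk, Prod.mk_add_mk,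
      true_and, and_true]
    first
      | (left; omega) | (right; left; omega) | (right; right; left; omega)
      | (right; right; right; left; omega) | (right; right; right; right; left; omega)
      | (right; right; right; right; right; omega)
  · refine ⟨cZ M (c1, c2), e₂ - e₃, by simp only [csum, cX, cY, cZ]; omega, by simp, ?_⟩
    rw [two_smul]
    refine trip_eq ?_
    simp only [cX, cY, cZ, e₁, e₂, e₃, Prod.mk.injEq, Prod.mk_sub_mk, Prod.mk_add_mk,
      true_and, and_true]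
    first
      | (left; omega) | (right; left; omega) | (right; right; left; omega)
      | (right; right; right; left; omega) | (right; right; right; right; left; omega)
      | (right; right; right; right; right; omega)
  · refine ⟨cY M (b1, b2), e₃ - e₁, by simp only [csum, cX, cY, cZ]; omega, by simp, ?_⟩
    rw [two_smul]
    refine trip_eq ?_
    simp only [cX, cY, cZ, e₁, e₂, e₃, Prod.mk.injEq, Prod.mk_sub_mk, Prod.mk_add_mk,
      true_and, and_true]
    first
      | (left; omega) | (right; left; omega) | (right; right; left; omega)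
      | (right; right; right; left; omega) | (right; right; right; right; left; omega)
      | (right; right; right; right; right; omega)

end Pool.Agent.Work.MP_70ae0e_co
end

-- merged part: Pool.Agent.Work.MP_70ae0e_co.Trans
section
/-! Tilings of the benzel are abstract tilings of the triangle of supercells. -/

namespace Pool.Agent.Work.MP_70ae0e_co

open Finset

noncomputable def Tri (M : ℤ) : Finset Pt := (Icc 0 M ×ˢ Icc 0 M).filter (fun p => p.1 + p.2 ≤ M)

theorem mem_Tri {M : ℤ} {p : Pt} : p ∈ Tri M ↔ 0 ≤ p.1 ∧ 0 ≤ p.2 ∧ p.1 + p.2 ≤ M := by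
  simp only [Tri, mem_filter, mem_product, mem_Icc]; omega

/-- `π` maps `σ` bijectively onto the triangle minus the point `k`. -/
structure Cov (M : ℤ) (π : ATile → Pt) (k : Pt) (σ : Finset ATile) : Prop where
  mem : ∀ t ∈ σ, π t ∈ Tri M ∧ π t ≠ k
  inj : ∀ t ∈ σ, ∀ t' ∈ σ, π t = π t' → t = t'
  sur : ∀ a ∈ Tri M, a ≠ k → ∃ t ∈ σ, π t = a

def pX (t : ATile) : Pt := t.1
def pY (t : ATile) : Pt := t.2.1
def pZ (t : ATile) : Pt := t.2.2

structure ATiling (M : ℤ) (σ : Finset ATile) : Prop where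
  pat : ∀ t ∈ σ, Pat t
  covX : Cov M pX (0, 0) σ
  covY : Cov M pY (0, M) σ
  covZ : Cov M pZ (M, 0) σ

open Classical in
noncomputable def AT (M : ℤ) : Finset (Finset ATile) :=
  (Tri M ×ˢ Tri M ×ˢ Tri M).powerset.filter (ATiling M)

theorem mem_AT {M : ℤ} {σ : Finset ATile} : σ ∈ AT M ↔ ATiling M σ := by
  classical
  simp only [AT, mem_filter, mem_powerset, and_iff_right_iff_imp]
  intro h t ht
  exact mem_product.2 ⟨(h.covX.mem t ht).1,
    mem_product.2 ⟨(h.covY.mem t ht).1, (h.covZ.mem t ht).1⟩⟩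

theorem mem_benzel {a b : ℤ} {c : Cell} : c ∈ benzel a b ↔ c ∈ benzelSet a b := by
  simp [benzel]

theorem cX_benzel {M : ℤ} {S : Pt} :
    cX M S ∈ benzel (M + 2) (2 * M + 1) ↔ S ∈ Tri M ∧ S ≠ (0, 0) := by
  obtain ⟨x, y⟩ := S
  simp only [mem_benzel, benzelSet, csum, cX, Set.mem_ofPred_eq, mem_Tri, ne_eq, Prod.mk.injEq]
  omega

theorem cY_benzel {M : ℤ} {S : Pt} :
    cY M S ∈ benzel (M + 2) (2 * M + 1) ↔ S ∈ Tri M ∧ S ≠ (0, M) := by
  obtain ⟨x, y⟩ := S
  simp only [mem_benzel, benzelSet, csum, cY, Set.mem_ofPred_eq, mem_Tri, ne_eq, Prod.mk.injEq]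
  omega

theorem cZ_benzel {M : ℤ} {S : Pt} :
    cZ M S ∈ benzel (M + 2) (2 * M + 1) ↔ S ∈ Tri M ∧ S ≠ (M, 0) := by
  obtain ⟨x, y⟩ := S
  simp only [mem_benzel, benzelSet, csum, cZ, Set.mem_ofPred_eq, mem_Tri, ne_eq, Prod.mk.injEq]
  omega

theorem stone_cells (M : ℤ) {t : ATile} : IsStone (cells M t) ↔ StonePat t := by
  constructor
  · rintro (h | h)
    · obtain ⟨t', h1, h2⟩ := right_pat M h
      exact Or.inl (cells_injective M h2 ▸ h1)
    · obtain ⟨t', h1, h2⟩ := left_pat M h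
      exact Or.inr (cells_injective M h2 ▸ h1)
  · rintro (h | h)
    · exact Or.inl (pat_right M h)
    · exact Or.inr (pat_left M h)

theorem tile_pat (M : ℤ) {s : Finset Cell} (h : IsTile s) : ∃ t, Pat t ∧ cells M t = s := by
  rcases h with (h | h) | h
  · obtain ⟨t, h1, h2⟩ := right_pat M h
    exact ⟨t, Or.inl (Or.inl h1), h2⟩
  · obtain ⟨t, h1, h2⟩ := left_pat M h
    exact ⟨t, Or.inl (Or.inr h1), h2⟩
  · obtain ⟨t, h1, h2⟩ := bone_pat M h
    exact ⟨t, Or.inr h1, h2⟩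

theorem pat_tile (M : ℤ) {t : ATile} (h : Pat t) : IsTile (cells M t) := by
  rcases h with h | h
  · exact Or.inl ((stone_cells M).2 h)
  · exact Or.inr (pat_bone M h)

theorem cov_exu {M : ℤ} {π : ATile → Pt} {k : Pt} {σ : Finset ATile} (h : Cov M π k σ)
    {c : Cell} {S : Pt} (hc : ∀ t, c ∈ cells M t ↔ π t = S) (hS : S ∈ Tri M ∧ S ≠ k) :
    ∃! s, s ∈ σ.image (cells M) ∧ c ∈ s := by
  obtain ⟨t, ht, h1⟩ := h.sur S hS.1 hS.2
  refine ⟨cells M t, ⟨mem_image_of_mem _ ht, (hc t).2 h1⟩, ?_⟩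
  rintro s ⟨hs, hcs⟩
  obtain ⟨t', ht', rfl⟩ := mem_image.1 hs
  rw [h.inj t' ht' t ht (((hc t').1 hcs).trans h1.symm)]

/-- The partition of the benzel given by an abstract tiling. -/
noncomputable def toPart (M : ℤ) (σ : Finset ATile) (h : ATiling M σ) :
    Finpartition (benzel (M + 2) (2 * M + 1)) :=
  Finpartition.ofExistsUnique (σ.image (cells M))
    (by
      intro p hp c hc
      obtain ⟨t, ht, rfl⟩ := mem_image.1 hp
      simp only [cells, mem_insert, mem_singleton] at hc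
      rcases hc with rfl | rfl | rfl
      · exact cX_benzel.2 (h.covX.mem t ht)
      · exact cY_benzel.2 (h.covY.mem t ht)
      · exact cZ_benzel.2 (h.covZ.mem t ht))
    (by
      intro c hc
      rcases cell_cases M c (mem_benzel.1 hc).1 with ⟨S, rfl⟩ | ⟨S, rfl⟩ | ⟨S, rfl⟩
      · exact cov_exu h.covX (fun t => cX_mem) (cX_benzel.1 hc)
      · exact cov_exu h.covY (fun t => cY_mem) (cY_benzel.1 hc)
      · exact cov_exu h.covZ (fun t => cZ_mem) (cZ_benzel.1 hc))
    (by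
      intro h0
      obtain ⟨t, -, ht⟩ := mem_image.1 h0
      have : cX M t.1 ∈ cells M t := cX_mem.2 rfl
      rw [ht] at this
      exact notMem_empty _ this)

theorem toPart_parts (M : ℤ) (σ : Finset ATile) (h : ATiling M σ) :
    (toPart M σ h).parts = σ.image (cells M) := rfl

theorem cov_of_part {M : ℤ} (τ : Finpartition (benzel (M + 2) (2 * M + 1)))
    (hτ : ∀ s ∈ τ.parts, IsTile s) {σ : Finset ATile} (hσ : ∀ t, t ∈ σ ↔ cells M t ∈ τ.parts)
    {π : ATile → Pt} {k : Pt} (f : Pt → Cell) (hf : ∀ S t, f S ∈ cells M t ↔ π t = S)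
    (hb : ∀ S, f S ∈ benzel (M + 2) (2 * M + 1) ↔ S ∈ Tri M ∧ S ≠ k) : Cov M π k σ where
  mem t ht := (hb _).1 (τ.subset ((hσ t).1 ht) ((hf _ t).2 rfl))
  inj t ht t' ht' h := cells_injective M
    (τ.eq_of_mem_parts ((hσ t).1 ht) ((hσ t').1 ht') ((hf _ t).2 rfl) ((hf _ t').2 h.symm))
  sur a ha hk := by
    obtain ⟨s, hs, hc⟩ := τ.exists_mem ((hb a).2 ⟨ha, hk⟩)
    obtain ⟨t, -, rfl⟩ := tile_pat M (hτ s hs)
    exact ⟨t, (hσ t).2 hs, (hf a t).1 hc⟩

theorem T3_eq (M : ℤ) :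
    T3 (M + 2) (2 * M + 1) = ∑ σ ∈ AT M, 3 ^ (σ.filter StonePat).card := by
  classical
  unfold T3
  symm
  refine Finset.sum_bij (fun σ h => toPart M σ (mem_AT.1 h)) ?_ ?_ ?_ ?_
  · intro σ h
    simp only [mem_filter, mem_univ, true_and, toPart_parts]
    intro s hs
    obtain ⟨t, ht, rfl⟩ := mem_image.1 hs
    exact pat_tile M ((mem_AT.1 h).pat t ht)
  · intro σ h σ' h' he
    have := congrArg Finpartition.parts he
    simp only [toPart_parts] at this
    exact image_injective (cells_injective M) this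
  · intro τ hτ
    simp only [mem_filter, mem_univ, true_and] at hτ
    set σ := τ.parts.preimage (cells M) (cells_injective M).injOn with hσdef
    have hσ : ∀ t, t ∈ σ ↔ cells M t ∈ τ.parts := fun t => mem_preimage
    have hA : ATiling M σ :=
      ⟨fun t ht => by
          obtain ⟨t', h1, h2⟩ := tile_pat M (hτ _ ((hσ t).1 ht))
          exact cells_injective M h2 ▸ h1,
        cov_of_part τ hτ hσ (cX M) (fun S t => cX_mem) (fun S => cX_benzel),
        cov_of_part τ hτ hσ (cY M) (fun S t => cY_mem) (fun S => cY_benzel),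
        cov_of_part τ hτ hσ (cZ M) (fun S t => cZ_mem) (fun S => cZ_benzel)⟩
    refine ⟨σ, mem_AT.2 hA, Finpartition.ext ?_⟩
    rw [toPart_parts]
    ext s
    simp only [mem_image]
    constructor
    · rintro ⟨t, ht, rfl⟩
      exact (hσ t).1 ht
    · intro hs
      obtain ⟨t, -, rfl⟩ := tile_pat M (hτ s hs)
      exact ⟨t, (hσ t).2 hs, rfl⟩
  · intro σ h
    congr 1
    rw [toPart_parts, filter_image, card_image_of_injective _ (cells_injective M)]
    congr 1
    ext t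
    simp only [mem_filter, stone_cells]

end Pool.Agent.Work.MP_70ae0e_co
end
end

-- merged part: Pool.Agent.Work.MP_70ae0e_co.NoTriple
section
/-! Counting arguments: no tile meets three different supercells. -/

namespace Pool.Agent.Work.MP_70ae0e_co

open Finset

theorem Cov.sum_eq {M : ℤ} {π : ATile → Pt} {k : Pt} {σ : Finset ATile} (h : Cov M π k σ)
    (hk : k ∈ Tri M) (f : Pt → ℤ) : ∑ t ∈ σ, f (π t) = ∑ a ∈ Tri M, f a - f k := by
  rw [← Finset.sum_erase_eq_sub hk]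
  refine Finset.sum_bij (fun t _ => π t) ?_ ?_ ?_ ?_
  · intro t ht
    exact mem_erase.2 ⟨(h.mem t ht).2, (h.mem t ht).1⟩
  · intro t ht t' ht' he
    exact h.inj t ht t' ht' he
  · intro a ha
    obtain ⟨t, ht, h1⟩ := h.sur a (mem_erase.1 ha).2 (mem_erase.1 ha).1
    exact ⟨t, ht, h1⟩
  · intro t _
    rfl

theorem ATiling.sum3 {M : ℤ} (hM : 0 ≤ M) {σ : Finset ATile} (h : ATiling M σ)
    (f g k : Pt → ℤ) (h0 : ∀ a ∈ Tri M, f a + g a + k a = 0) :
    ∑ t ∈ σ, (f (pX t) + g (pY t) + k (pZ t)) = -(f (0, 0) + g (0, M) + k (M, 0)) := by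
  have e1 := h.covX.sum_eq (mem_Tri.2 (by simp only; omega)) f
  have e2 := h.covY.sum_eq (mem_Tri.2 (by simp only; omega)) g
  have e3 := h.covZ.sum_eq (mem_Tri.2 (by simp only; omega)) k
  have e4 : ∑ a ∈ Tri M, (f a + g a + k a) = 0 := sum_eq_zero h0
  simp only [sum_add_distrib] at e4 ⊢
  linarith

theorem others_zero {σ : Finset ATile} {g : ATile → ℤ} (hs : ∑ t ∈ σ, g t = 1)
    (hg : ∀ t ∈ σ, 0 ≤ g t) {τ : ATile} (hτ : τ ∈ σ) (h1 : g τ = 1) :
    ∀ t ∈ σ.erase τ, g t = 0 := by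
  have := Finset.sum_erase_eq_sub (f := g) hτ
  rw [hs, h1, sub_self] at this
  exact (sum_eq_zero_iff_of_nonneg (fun t ht => hg t (mem_of_mem_erase ht))).1 this

def ind (s x : ℤ) : ℤ := if s ≤ x then 1 else 0

def TriplePat (t : ATile) : Prop :=
  Sh t 0 (-1) (-1) 0 ∨ Sh t (-1) 0 (-1) 1 ∨ Sh t (-1) 0 (-2) 1 ∨ Sh t 0 (-1) (-1) 1 ∨
    Sh t (-1) (-1) (-1) 0

/-- The facts about a tile used in the counting. -/
theorem Pat.mono {t : ATile} (h : Pat t) :
    t.2.2.1 ≤ t.1.1 ∧ t.2.1.2 ≤ t.2.2.2 ∧ t.2.1.1 + t.2.1.2 ≤ t.1.1 + t.1.2 ∧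
      t.2.2.1 + t.2.1.2 ≤ t.1.1 + t.1.2 ∧ t.2.1.1 + t.2.1.2 ≤ t.1.1 + t.2.2.2 := by
  simp only [Pat, StonePat, RPat, LPat, BonePat, Sh] at h
  rcases h with ((h | h | h) | h | h | h) | h | h | h | h | h | h | h | h | h <;> omega

theorem ind_one {s x : ℤ} (h : s ≤ x) : ind s x = 1 := if_pos h

theorem ind_zero {s x : ℤ} (h : x < s) : ind s x = 0 := if_neg (not_le.2 h)

theorem ind_cases (s x : ℤ) : (s ≤ x ∧ ind s x = 1) ∨ (x < s ∧ ind s x = 0) :=
  (le_or_gt s x).imp (fun h => ⟨h, ind_one h⟩) fun h => ⟨h, ind_zero h⟩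

theorem ind_mono {s x y : ℤ} (h : x ≤ y) : ind s x ≤ ind s y := by
  rcases ind_cases s x with ⟨p, q⟩ | ⟨p, q⟩ <;> rcases ind_cases s y with ⟨p', q'⟩ | ⟨p', q'⟩ <;>
    omega

theorem le_of_ind {s x y : ℤ} (h : ind s x = ind s y) (k : s ≤ x) : s ≤ y := by
  rcases ind_cases s y with ⟨p, -⟩ | ⟨-, q⟩
  · exact p
  · rw [ind_one k, q] at h; omega

theorem lt_of_ind {s x y : ℤ} (h : ind s x = ind s y) (k : x < s) : y < s :=
  lt_of_not_ge fun e => not_le.2 k (le_of_ind h.symm e)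

theorem ind_fin {a c s x z y w u v : ℤ} (e1 : ind a x + 0 + -ind a z = 0)
    (e2 : 0 + -ind c y + ind c w = 0) (e3 : -ind s u + ind s v + 0 = 0)
    (k1 : a ≤ z → c ≤ y → s ≤ u → False) (k0 : x < a → w < c → v < s → False) :
    ind a x * ind s u - ind a x + 1 + (ind c y * ind s v - ind s v) +
      (ind a z * ind c w - ind c w) = 0 := by
  have f1 : ind a x = ind a z := by omega
  have f2 : ind c y = ind c w := by omega
  have f3 : ind s u = ind s v := by omega
  rw [← f1, ← f2, ← f3]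
  rcases ind_cases a x with ⟨p1, q1⟩ | ⟨p1, q1⟩ <;> rcases ind_cases c y with ⟨p2, q2⟩ | ⟨p2, q2⟩ <;>
    rcases ind_cases s u with ⟨p3, q3⟩ | ⟨p3, q3⟩
  · exact (k1 (le_of_ind f1 p1) p2 p3).elim
  rotate_right
  · exact (k0 p1 (lt_of_ind f2 p2) (lt_of_ind f3 p3)).elim
  all_goals rw [q1, q2, q3]; rfl

theorem ind_sq (a c s x y u : ℤ) (h : a ≤ x → c ≤ y → s ≤ u → False)
    (k : x < a → y < c → u < s → False) :
    ind a x * ind s u - ind a x + 1 + (ind c y * ind s u - ind s u) +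
      (ind a x * ind c y - ind c y) = 0 :=
  ind_fin (by omega) (by omega) (by omega) h k

theorem no_triple {M : ℤ} (hM : 0 ≤ M) {σ : Finset ATile} (h : ATiling M σ) {τ : ATile}
    (hτ : τ ∈ σ) : ¬ TriplePat τ := by
  intro hT
  obtain ⟨⟨a1, a2⟩, ⟨b1, b2⟩, ⟨c1, c2⟩⟩ := τ
  have ha := mem_Tri.1 (h.covX.mem _ hτ).1
  have hb := mem_Tri.1 (h.covY.mem _ hτ).1
  have hc := mem_Tri.1 (h.covZ.mem _ hτ).1
  simp only [pX, pY, pZ] at ha hb hc
  have hT' : c1 < a1 ∧ b2 < c2 ∧ b1 + b2 < a1 + a2 ∧ b1 + b2 + 1 ≤ a1 + c2 ∧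
      a1 + c2 ≤ b1 + b2 + 2 := by
    simp only [TriplePat, Sh] at hT
    omega
  obtain ⟨t1, t2, t3, t4, t5⟩ := hT'
  have hx := others_zero (g := fun t => ind a1 (pX t).1 + 0 + -ind a1 (pZ t).1)
    ((h.sum3 hM (fun p => ind a1 p.1) (fun _ => 0) (fun p => -ind a1 p.1) (by simp)).trans
      (by
        show -(ind a1 0 + 0 + -ind a1 M) = 1
        rw [ind_zero (by omega), ind_one (by omega)]; rfl))
    (fun t ht => by
      have := ind_mono (s := a1) (h.pat t ht).mono.1
      show 0 ≤ ind a1 t.1.1 + 0 + -ind a1 t.2.2.1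
      linarith only [this]) hτ
    (by
      show ind a1 a1 + 0 + -ind a1 c1 = 1
      rw [ind_one le_rfl, ind_zero t1]; rfl)
  have hy := others_zero (g := fun t => 0 + -ind c2 (pY t).2 + ind c2 (pZ t).2)
    ((h.sum3 hM (fun _ => 0) (fun p => -ind c2 p.2) (fun p => ind c2 p.2) (by simp)).trans
      (by
        show -(0 + -ind c2 M + ind c2 0) = 1
        rw [ind_one (by omega), ind_zero (by omega)]; rfl))
    (fun t ht => by
      have := ind_mono (s := c2) (h.pat t ht).mono.2.1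
      show 0 ≤ 0 + -ind c2 t.2.1.2 + ind c2 t.2.2.2
      linarith only [this]) hτ
    (by
      show 0 + -ind c2 b2 + ind c2 c2 = 1
      rw [ind_zero t2, ind_one le_rfl]; rfl)
  have hz := others_zero (g := fun t => -ind (M - b1 - b2) (M - (pX t).1 - (pX t).2) +
      ind (M - b1 - b2) (M - (pY t).1 - (pY t).2) + 0)
    ((h.sum3 hM (fun p => -ind (M - b1 - b2) (M - p.1 - p.2))
      (fun p => ind (M - b1 - b2) (M - p.1 - p.2)) (fun _ => 0) (by simp)).trans
      (by
        show -(-ind (M - b1 - b2) (M - 0 - 0) + ind (M - b1 - b2) (M - 0 - M) + 0) = 1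
        rw [ind_one (by omega), ind_zero (by omega)]; rfl))
    (fun t ht => by
      have := ind_mono (s := M - b1 - b2) (x := M - t.1.1 - t.1.2) (y := M - t.2.1.1 - t.2.1.2)
        (by linarith only [(h.pat t ht).mono.2.2.1])
      show 0 ≤ -ind (M - b1 - b2) (M - t.1.1 - t.1.2) +
        ind (M - b1 - b2) (M - t.2.1.1 - t.2.1.2) + 0
      linarith only [this]) hτ
    (by
      show -ind (M - b1 - b2) (M - a1 - a2) + ind (M - b1 - b2) (M - b1 - b2) + 0 = 1
      rw [ind_zero (by omega), ind_one le_rfl]; rfl)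
  have hq := h.sum3 hM
    (fun p => ind a1 p.1 * ind (M - b1 - b2) (M - p.1 - p.2) - ind a1 p.1 + 1)
    (fun p => ind c2 p.2 * ind (M - b1 - b2) (M - p.1 - p.2) - ind (M - b1 - b2) (M - p.1 - p.2))
    (fun p => ind a1 p.1 * ind c2 p.2 - ind c2 p.2)
    (fun p _ => ind_sq _ _ _ _ _ _ (fun k1 k2 k3 => by linarith only [k1, k2, k3, t4])
      fun k1 k2 k3 => by omega)
  rw [← Finset.add_sum_erase _ _ hτ, Finset.sum_eq_zero] at hq
  · change ind a1 a1 * ind (M - b1 - b2) (M - a1 - a2) - ind a1 a1 + 1 +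
        (ind c2 b2 * ind (M - b1 - b2) (M - b1 - b2) - ind (M - b1 - b2) (M - b1 - b2)) +
        (ind a1 c1 * ind c2 c2 - ind c2 c2) + 0 =
      -(ind a1 0 * ind (M - b1 - b2) (M - 0 - 0) - ind a1 0 + 1 +
        (ind c2 M * ind (M - b1 - b2) (M - 0 - M) - ind (M - b1 - b2) (M - 0 - M)) +
        (ind a1 M * ind c2 0 - ind c2 0)) at hq
    rw [ind_one (le_refl a1), ind_one (le_refl c2), ind_one (le_refl (M - b1 - b2)),
      ind_zero t1, ind_zero t2, ind_zero (x := M - a1 - a2) (by omega),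
      ind_zero (x := 0) (s := a1) (by omega), ind_zero (x := 0) (s := c2) (by omega),
      ind_zero (x := M - 0 - M) (by omega)] at hq
    omega
  · intro t ht
    obtain ⟨-, -, -, m4, m5⟩ := (h.pat t (mem_of_mem_erase ht)).mono
    exact ind_fin (hx t ht) (hy t ht) (hz t ht)
      (fun k1 k2 k3 => by
        simp only [pX, pY, pZ] at k1 k2 k3
        linarith only [k1, k2, k3, t4, m4])
      fun k1 k2 k3 => by
        simp only [pX, pY, pZ] at k1 k2 k3
        linarith only [k1, k2, k3, t5, m5]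

end Pool.Agent.Work.MP_70ae0e_co
end

-- merged part: Pool.Agent.Work.MP_70ae0e_co.Per
section
-- merged part: Pool.Agent.Work.MP_70ae0e_co.Flow
section
/-! Weighted ballot paths with steps `A` (up), `B` (down), `D` (level), as sets of arrows. -/

namespace Pool.Agent.Work.MP_70ae0e_co

open Finset

inductive Step | A | B | D
  deriving DecidableEq

instance : Fintype Step := ⟨{Step.A, Step.B, Step.D}, fun x => by cases x <;> simp⟩

abbrev Arr : Type := Step × ℕ × ℕ

def src : Arr → ℕ × ℕ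
  | (Step.A, h, u) => (h, u)
  | (Step.B, h, u) => (h + 1, u)
  | (Step.D, h, u) => (h, u)

def tgt : Arr → ℕ × ℕ
  | (Step.A, h, u) => (h + 1, u)
  | (Step.B, h, u) => (h, u + 1)
  | (Step.D, h, u) => (h, u + 1)

def pot (s : ℕ × ℕ) : ℕ := s.1 + 2 * s.2

theorem pot_lt (e : Arr) : pot (src e) < pot (tgt e) := by
  obtain ⟨k, h, u⟩ := e
  cases k <;> simp only [src, tgt, pot] <;> omega

theorem tgt_ne_zero (e : Arr) : tgt e ≠ (0, 0) := by
  obtain ⟨k, h, u⟩ := e
  cases k <;> simp [tgt]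

theorem tgt_ne_src (e : Arr) : tgt e ≠ src e := fun h => by
  have := pot_lt e
  rw [h] at this
  exact lt_irrefl _ this

theorem eq_of_tgt {e e' : Arr} (h1 : e.1 = e'.1) (h2 : tgt e = tgt e') : e = e' := by
  obtain ⟨k, h, u⟩ := e
  obtain ⟨k', h', u'⟩ := e'
  simp only at h1
  subst h1
  cases k <;> simpa [tgt] using h2

structure IsFlow (p : ℕ × ℕ) (φ : Finset Arr) : Prop where
  outU : ∀ e ∈ φ, ∀ e' ∈ φ, src e = src e' → e = e'
  inU : ∀ e ∈ φ, ∀ e' ∈ φ, tgt e = tgt e' → e = e'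
  notSrc : ∀ e ∈ φ, src e ≠ p
  bal : ∀ s, (s = (0, 0) ∨ ∃ e ∈ φ, tgt e = s) ↔ (s = p ∨ ∃ e ∈ φ, src e = s)

theorem IsFlow.bound {p : ℕ × ℕ} {φ : Finset Arr} (h : IsFlow p φ) :
    ∀ e ∈ φ, pot (tgt e) ≤ pot p := by
  intro e he
  obtain ⟨m, hm, hmax⟩ := φ.exists_max_image (fun e => pot (tgt e)) ⟨e, he⟩
  rcases (h.bal (tgt m)).1 (Or.inr ⟨m, hm, rfl⟩) with h1 | ⟨e', he', h1⟩
  · exact h1 ▸ hmax e he
  · have h2 := hmax e' he'
    have h3 := pot_lt e'
    rw [h1] at h3
    omega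

theorem IsFlow.unique {p p' : ℕ × ℕ} {φ : Finset Arr} (h : IsFlow p φ) (h' : IsFlow p' φ) :
    p = p' := by
  rcases (h'.bal p).1 ((h.bal p).2 (Or.inl rfl)) with h1 | ⟨e, he, h1⟩
  · exact h1
  · exact absurd h1 (h.notSrc e he)

theorem isFlow_zero {φ : Finset Arr} : IsFlow (0, 0) φ ↔ φ = ∅ := by
  constructor
  · intro h
    refine eq_empty_of_forall_notMem fun e he => ?_
    have h1 := h.bound e he
    have h2 := pot_lt e
    simp only [pot] at h1 h2
    omega
  · rintro rfl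
    exact ⟨by simp, by simp, by simp, by simp⟩

theorem IsFlow.exists_last {p : ℕ × ℕ} {φ : Finset Arr} (h : IsFlow p φ) (hp : p ≠ (0, 0)) :
    ∃ e ∈ φ, tgt e = p :=
  ((h.bal p).2 (Or.inl rfl)).resolve_left hp

theorem IsFlow.erase {φ : Finset Arr} {e : Arr} (h : IsFlow (tgt e) φ) (he : e ∈ φ) :
    IsFlow (src e) (φ.erase e) where
  outU a ha b hb := h.outU a (mem_of_mem_erase ha) b (mem_of_mem_erase hb)
  inU a ha b hb := h.inU a (mem_of_mem_erase ha) b (mem_of_mem_erase hb)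
  notSrc a ha hs := (mem_erase.1 ha).1 (h.outU a (mem_of_mem_erase ha) e he hs)
  bal s := by
    constructor
    · intro hs
      have h1 : s = (0, 0) ∨ ∃ a ∈ φ, tgt a = s :=
        hs.imp_right fun ⟨a, ha, h1⟩ => ⟨a, mem_of_mem_erase ha, h1⟩
      rcases (h.bal s).1 h1 with h2 | ⟨a, ha, h2⟩
      · rcases hs with h3 | ⟨a, ha, h3⟩
        · exact absurd (h2.symm.trans h3) (tgt_ne_zero e)
        · exact absurd (h.inU a (mem_of_mem_erase ha) e he (h3.trans h2)) (mem_erase.1 ha).1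
      · by_cases hae : a = e
        · exact Or.inl (hae ▸ h2.symm)
        · exact Or.inr ⟨a, mem_erase.2 ⟨hae, ha⟩, h2⟩
    · intro hs
      have h1 : ∃ a ∈ φ, src a = s := by
        rcases hs with h2 | ⟨a, ha, h2⟩
        · exact ⟨e, he, h2.symm⟩
        · exact ⟨a, mem_of_mem_erase ha, h2⟩
      rcases (h.bal s).2 (Or.inr h1) with h2 | ⟨a, ha, h2⟩
      · exact Or.inl h2
      · refine Or.inr ⟨a, mem_erase.2 ⟨?_, ha⟩, h2⟩
        rintro rfl
        obtain ⟨b, hb, h3⟩ := h1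
        exact h.notSrc b hb (h3.trans h2.symm)

theorem IsFlow.notMem {φ : Finset Arr} {e : Arr} (h : IsFlow (src e) φ) : e ∉ φ :=
  fun he => h.notSrc e he rfl

theorem IsFlow.insert {φ : Finset Arr} {e : Arr} (h : IsFlow (src e) φ) :
    IsFlow (tgt e) (insert e φ) := by
  have hb := h.bound
  have hl := pot_lt e
  have ht : ∀ a ∈ φ, tgt a ≠ tgt e := fun a ha h1 => by
    have := hb a ha
    rw [h1] at this
    omega
  have hs : ∀ a ∈ φ, src a ≠ tgt e := fun a ha h1 => by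
    have h2 := hb a ha
    have h3 := pot_lt a
    rw [h1] at h3
    omega
  refine ⟨?_, ?_, ?_, ?_⟩
  · intro a ha b hb hab
    rcases mem_insert.1 ha with rfl | ha' <;> rcases mem_insert.1 hb with rfl | hb'
    · rfl
    · exact absurd hab.symm (h.notSrc b hb')
    · exact absurd hab (h.notSrc a ha')
    · exact h.outU a ha' b hb' hab
  · intro a ha b hb hab
    rcases mem_insert.1 ha with rfl | ha' <;> rcases mem_insert.1 hb with rfl | hb'
    · rfl
    · exact absurd hab.symm (ht b hb')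
    · exact absurd hab (ht a ha')
    · exact h.inU a ha' b hb' hab
  · intro a ha
    rcases mem_insert.1 ha with rfl | ha'
    · exact (tgt_ne_src a).symm
    · exact hs a ha'
  · intro s
    have := h.bal s
    simp only [mem_insert, exists_eq_or_imp]
    constructor
    · rintro (h1 | h1 | h1)
      · rcases this.1 (Or.inl h1) with h2 | h2
        · exact Or.inr (Or.inl h2.symm)
        · exact Or.inr (Or.inr h2)
      · exact Or.inl h1.symm
      · rcases this.1 (Or.inr h1) with h2 | h2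
        · exact Or.inr (Or.inl h2.symm)
        · exact Or.inr (Or.inr h2)
    · rintro (h1 | h1 | h1)
      · exact Or.inr (Or.inl h1.symm)
      · rcases this.2 (Or.inl h1.symm) with h2 | h2
        · exact Or.inl h2
        · exact Or.inr (Or.inr h2)
      · rcases this.2 (Or.inr h1) with h2 | h2
        · exact Or.inl h2
        · exact Or.inr (Or.inr h2)

/-- The last step of the path is of type `k`. -/
def Last (k : Step) (p : ℕ × ℕ) (φ : Finset Arr) : Prop := ∃ e ∈ φ, e.1 = k ∧ tgt e = p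

theorem IsFlow.quad : ∀ (n : ℕ) {p : ℕ × ℕ} {φ : Finset Arr}, pot p ≤ n → IsFlow p φ →
    ∀ e ∈ φ, (src e).2 ≤ p.2 ∧ (src e).1 + (src e).2 ≤ p.1 + p.2 ∧
      ((src e).2 = p.2 → Last Step.A p φ) ∧
      ((src e).1 + (src e).2 = p.1 + p.2 → Last Step.B p φ) := by
  intro n
  induction n with
  | zero =>
    intro p φ hp h e he
    have h1 := h.bound e he
    have h2 := pot_lt e
    omega
  | succ n ih =>
    intro p φ hp h e he
    have hp0 : p ≠ (0, 0) := by
      rintro rfl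
      rw [isFlow_zero.1 h] at he
      exact notMem_empty _ he
    obtain ⟨m, hm, rfl⟩ := h.exists_last hp0
    have hl := pot_lt m
    have key : (src e).2 ≤ (src m).2 ∧ (src e).1 + (src e).2 ≤ (src m).1 + (src m).2 := by
      by_cases hem : e = m
      · subst hem; exact ⟨le_rfl, le_rfl⟩
      · have := ih (by omega) (h.erase hm) e (mem_erase.2 ⟨hem, he⟩)
        exact ⟨this.1, this.2.1⟩
    obtain ⟨k, a, b⟩ := m
    cases k
    · simp only [src, tgt] at key ⊢
      exact ⟨by omega, by omega, fun _ => ⟨_, hm, rfl, rfl⟩, fun _ => by omega⟩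
    · simp only [src, tgt] at key ⊢
      exact ⟨by omega, by omega, fun _ => by omega, fun _ => ⟨_, hm, rfl, rfl⟩⟩
    · simp only [src, tgt] at key ⊢
      exact ⟨by omega, by omega, fun _ => by omega, fun _ => by omega⟩

open Classical in
noncomputable def Flows (p : ℕ × ℕ) : Finset (Finset Arr) :=
  ((univ : Finset Step) ×ˢ range (pot p + 1) ×ˢ range (pot p + 1)).powerset.filter (IsFlow p)

theorem mem_Flows {p : ℕ × ℕ} {φ : Finset Arr} : φ ∈ Flows p ↔ IsFlow p φ := by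
  classical
  simp only [Flows, mem_filter, mem_powerset, and_iff_right_iff_imp]
  intro h e he
  have := h.bound e he
  obtain ⟨k, a, b⟩ := e
  simp only [mem_product, mem_univ, mem_range, true_and]
  cases k <;> simp only [tgt, pot] at this ⊢ <;> omega

section weights

variable {R : Type} [CommRing R] (q : R)

def nD (φ : Finset Arr) : ℕ := (φ.filter (fun e => e.1 = Step.D)).card

def wt (φ : Finset Arr) : R := q ^ nD φ

noncomputable def sAll (p : ℕ × ℕ) : R := ∑ φ ∈ Flows p, wt q φ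

open Classical in
noncomputable def sL (k : Step) (p : ℕ × ℕ) : R :=
  ∑ φ ∈ Flows p, if Last k p φ then wt q φ else 0

theorem last_iff {e : Arr} {φ : Finset Arr} : Last e.1 (tgt e) φ ↔ e ∈ φ :=
  ⟨fun ⟨_, ha, h1, h2⟩ => eq_of_tgt h1 h2 ▸ ha, fun h => ⟨e, h, rfl, rfl⟩⟩

theorem sL_tgt (e : Arr) :
    sL q e.1 (tgt e) = (if e.1 = Step.D then q else 1) * sAll q (src e) := by
  classical
  unfold sL sAll
  rw [← sum_filter, mul_sum]
  symm
  refine Finset.sum_bij (fun φ _ => Insert.insert e φ) ?_ ?_ ?_ ?_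
  · intro φ h
    exact mem_filter.2 ⟨mem_Flows.2 (mem_Flows.1 h).insert, last_iff.2 (mem_insert_self _ _)⟩
  · intro φ h φ' h' he
    rw [← erase_insert (mem_Flows.1 h).notMem, he, erase_insert (mem_Flows.1 h').notMem]
  · intro φ h
    obtain ⟨h1, h2⟩ := mem_filter.1 h
    exact ⟨φ.erase e, mem_Flows.2 ((mem_Flows.1 h1).erase (last_iff.1 h2)),
      insert_erase (last_iff.1 h2)⟩
  · intro φ h
    have hn := (mem_Flows.1 h).notMem
    unfold wt nD
    rw [filter_insert]
    split_ifs with hD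
    · rw [card_insert_of_notMem (fun h => hn (mem_filter.1 h).1), pow_succ, mul_comm]
    · rw [one_mul]

theorem sL_zero {k : Step} {p : ℕ × ℕ} (h : ∀ e : Arr, e.1 = k → tgt e ≠ p) : sL q k p = 0 := by
  unfold sL
  refine sum_eq_zero fun φ _ => if_neg ?_
  rintro ⟨e, -, h1, h2⟩
  exact h e h1 h2

theorem sL_A_succ (h u : ℕ) : sL q Step.A (h + 1, u) = sAll q (h, u) := by
  simpa [src, tgt] using sL_tgt q (Step.A, h, u)

theorem sL_B_succ (h u : ℕ) : sL q Step.B (h, u + 1) = sAll q (h + 1, u) := by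
  simpa [src, tgt] using sL_tgt q (Step.B, h, u)

theorem sL_D_succ (h u : ℕ) : sL q Step.D (h, u + 1) = q * sAll q (h, u) := by
  simpa [src, tgt] using sL_tgt q (Step.D, h, u)

theorem sL_A_zero (u : ℕ) : sL q Step.A (0, u) = 0 :=
  sL_zero q (by rintro ⟨k, a, b⟩ rfl; simp [tgt])

theorem sL_B_zero (h : ℕ) : sL q Step.B (h, 0) = 0 :=
  sL_zero q (by rintro ⟨k, a, b⟩ rfl; simp [tgt])

theorem sL_D_zero (h : ℕ) : sL q Step.D (h, 0) = 0 :=
  sL_zero q (by rintro ⟨k, a, b⟩ rfl; simp [tgt])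

theorem IsFlow.last_unique {p : ℕ × ℕ} {φ : Finset Arr} (h : IsFlow p φ) {k k' : Step}
    (h1 : Last k p φ) (h2 : Last k' p φ) : k = k' := by
  obtain ⟨e, he, rfl, h3⟩ := h1
  obtain ⟨e', he', rfl, h4⟩ := h2
  rw [h.inU e he e' he' (h3.trans h4.symm)]

theorem sAll_zero : sAll q (0, 0) = 1 := by
  have : Flows (0, 0) = {∅} := by
    ext φ
    rw [mem_Flows, isFlow_zero, mem_singleton]
  simp [sAll, this, wt, nD]

theorem sAll_split {p : ℕ × ℕ} (hp : p ≠ (0, 0)) :
    sAll q p = sL q Step.A p + sL q Step.B p + sL q Step.D p := by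
  classical
  unfold sAll sL
  rw [← sum_add_distrib, ← sum_add_distrib]
  refine sum_congr rfl fun φ hφ => ?_
  have h := mem_Flows.1 hφ
  obtain ⟨e, he, h1⟩ := h.exists_last hp
  have h2 : Last e.1 p φ := ⟨e, he, rfl, h1⟩
  have h3 : ∀ k, Last k p φ ↔ k = e.1 := fun k => ⟨fun h4 => h.last_unique h4 h2, fun h4 => h4 ▸ h2⟩
  simp only [h3]
  cases e.1 <;> simp

/-- Truncated Delannoy sums. -/
def Dl (K a b : ℕ) : R := ∑ k ∈ range K, (a.choose k : R) * (b.choose k : R) * (1 + q) ^ k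

theorem Dl_comm (K a b : ℕ) : Dl q K a b = Dl q K b a :=
  sum_congr rfl fun _ _ => by ring

theorem Dl_zero (K a : ℕ) : Dl q (K + 1) a 0 = 1 := by
  unfold Dl
  rw [sum_range_succ']
  simp

theorem Dl_rec {K : ℕ} (hK : (1 + q) ^ (K + 1) = 0) (a b : ℕ) :
    Dl q (K + 1) (a + 1) (b + 1) =
      Dl q (K + 1) a (b + 1) + Dl q (K + 1) (a + 1) b + q * Dl q (K + 1) a b := by
  have h1 : (1 + q) * Dl q (K + 1) a b =
      ∑ k ∈ range K, (a.choose k : R) * (b.choose k : R) * (1 + q) ^ (k + 1) := by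
    unfold Dl
    rw [sum_range_succ, mul_add, mul_sum]
    have : (1 + q) * ((a.choose K : R) * (b.choose K : R) * (1 + q) ^ K) = 0 := by
      linear_combination (a.choose K : R) * (b.choose K : R) * hK
    rw [this, add_zero]
    exact sum_congr rfl fun _ _ => by ring
  have h2 : Dl q (K + 1) (a + 1) (b + 1) - Dl q (K + 1) a (b + 1) - Dl q (K + 1) (a + 1) b +
      Dl q (K + 1) a b =
      ∑ k ∈ range K, (a.choose k : R) * (b.choose k : R) * (1 + q) ^ (k + 1) := by
    unfold Dl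
    rw [← sum_sub_distrib, ← sum_sub_distrib, ← sum_add_distrib, sum_range_succ']
    simp only [Nat.choose_zero_right, Nat.cast_one, pow_zero, mul_one, Nat.choose_succ_succ',
      Nat.cast_add]
    rw [show (1 : R) - 1 - 1 + 1 = 0 by ring, add_zero]
    exact sum_congr rfl fun _ _ => by ring
  linear_combination h2 - h1

theorem sAll_h0 (h : ℕ) : sAll q (h, 0) = 1 := by
  induction h with
  | zero => exact sAll_zero q
  | succ h ih => rw [sAll_split q (by simp), sL_A_succ, sL_B_zero, sL_D_zero, ih]; ring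

theorem sAll_closed {K : ℕ} (hK : (1 + q) ^ (K + 1) = 0) (u : ℕ) : ∀ h : ℕ,
    sAll q (h, u + 1) = Dl q (K + 1) (h + u + 1) (u + 1) - Dl q (K + 1) (h + u + 2) u := by
  induction u with
  | zero =>
    intro h
    induction h with
    | zero =>
      rw [sAll_split q (by simp), sL_A_zero, sL_B_succ, sL_D_succ, sAll_h0, sAll_h0,
        Dl_rec q hK, Dl_comm q _ 0 (0 + 1)]
      simp only [Dl_zero]
      ring
    | succ h ih =>
      rw [sAll_split q (by simp), sL_A_succ, sL_B_succ, sL_D_succ, sAll_h0, sAll_h0, ih,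
        show h + 1 + 0 + 1 = (h + 0 + 1) + 1 by ring, Dl_rec q hK (h + 0 + 1) 0]
      simp only [Dl_zero]
      ring
  | succ u ihu =>
    intro h
    induction h with
    | zero =>
      rw [sAll_split q (by simp), sL_A_zero, sL_B_succ, sL_D_succ, ihu, ihu]
      have e1 := Dl_rec q hK (u + 1) (u + 1)
      have e2 := Dl_rec q hK (u + 2) u
      have e3 := Dl_comm q (K + 1) (u + 1) (u + 2)
      ring_nf at e1 e2 e3 ⊢
      linear_combination -e1 + e2 - e3
    | succ h ih =>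
      rw [sAll_split q (by simp), sL_A_succ, sL_B_succ, sL_D_succ, ih, ihu, ihu]
      have e1 := Dl_rec q hK (h + u + 2) (u + 1)
      have e2 := Dl_rec q hK (h + u + 3) u
      ring_nf at e1 e2 ⊢
      linear_combination -e1 + e2

end weights

end Pool.Agent.Work.MP_70ae0e_co
end

-- merged part: Pool.Agent.Work.MP_70ae0e_co.Color
section
/-! The three colours of arrows, and the passage between coverings and flows. -/

set_option linter.unusedSimpArgs false
set_option linter.unnecessarySeqFocus false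
set_option linter.unusedTactic false
set_option linter.unreachableTactic false

namespace Pool.Agent.Work.MP_70ae0e_co

open Finset

def base (t : ATile) : Pt := if t.1 = t.2.1 then t.1 else t.2.2

theorem eq_of_src_tgt {e e' : Arr} (h1 : src e = src e') (h2 : tgt e = tgt e') : e = e' := by
  obtain ⟨k, h, u⟩ := e
  obtain ⟨k', h', u'⟩ := e'
  cases k <;> cases k' <;> simp only [src, tgt, Prod.mk.injEq] at h1 h2 ⊢ <;>
    first | omega | exact ⟨trivial, by omega⟩

structure Col where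
  π : ATile → Pt
  emb : ℕ × ℕ → Pt
  tile : Arr → ATile
  emb_inj : Function.Injective emb
  π_tile : ∀ e, π (tile e) = emb (tgt e)
  base_tile : ∀ e, base (tile e) = emb (src e)

theorem Col.tile_inj (C : Col) : Function.Injective C.tile := fun e e' h =>
  eq_of_src_tgt (C.emb_inj (by rw [← C.base_tile, h, C.base_tile]))
    (C.emb_inj (by rw [← C.π_tile, h, C.π_tile]))

theorem Col.π_ne (C : Col) (e : Arr) : C.π (C.tile e) ≠ base (C.tile e) := by
  rw [C.π_tile, C.base_tile]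
  exact fun h => tgt_ne_src e (C.emb_inj h)

theorem Col.flow_of_cov (C : Col) {M : ℤ} {σ : Finset ATile} {p : ℕ × ℕ} {φ : Finset Arr}
    (hB : Cov M base (C.emb p) σ) (hp : C.emb p ∈ Tri M) (h0 : C.emb (0, 0) ∈ Tri M)
    (key : ∀ t ∈ σ, C.π t ≠ base t → ∃ e, C.tile e = t) (hφ : ∀ e, e ∈ φ ↔ C.tile e ∈ σ)
    (hπ : Cov M C.π (C.emb (0, 0)) σ) : IsFlow p φ where
  outU e he e' he' h := C.tile_inj (hB.inj _ ((hφ e).1 he) _ ((hφ e').1 he')
    (by rw [C.base_tile, C.base_tile, h]))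
  inU e he e' he' h := C.tile_inj (hπ.inj _ ((hφ e).1 he) _ ((hφ e').1 he')
    (by rw [C.π_tile, C.π_tile, h]))
  notSrc e he h := (hB.mem _ ((hφ e).1 he)).2 (by rw [C.base_tile, h])
  bal s := by
    constructor
    · intro hs
      by_cases hsp : s = p
      · exact Or.inl hsp
      have hS : C.emb s ∈ Tri M := by
        rcases hs with rfl | ⟨e, he, rfl⟩
        · exact h0
        · rw [← C.π_tile]; exact (hπ.mem _ ((hφ e).1 he)).1
      obtain ⟨t, ht, h1⟩ := hB.sur _ hS (fun h => hsp (C.emb_inj h))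
      have h2 : C.π t ≠ base t := by
        intro h2
        rcases hs with rfl | ⟨e, he, rfl⟩
        · exact (hπ.mem t ht).2 (h2.trans h1)
        · have : t = C.tile e := hπ.inj t ht _ ((hφ e).1 he) (by rw [h2, h1, C.π_tile])
          exact C.π_ne e (this ▸ h2)
      obtain ⟨e, rfl⟩ := key t ht h2
      exact Or.inr ⟨e, (hφ e).2 ht, C.emb_inj (by rw [← C.base_tile, h1])⟩
    · intro hs
      by_cases hs0 : s = (0, 0)
      · exact Or.inl hs0
      have hS : C.emb s ∈ Tri M := by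
        rcases hs with rfl | ⟨e, he, rfl⟩
        · exact hp
        · rw [← C.base_tile]; exact (hB.mem _ ((hφ e).1 he)).1
      obtain ⟨t, ht, h1⟩ := hπ.sur _ hS (fun h => hs0 (C.emb_inj h))
      have h2 : C.π t ≠ base t := by
        intro h2
        rcases hs with rfl | ⟨e, he, rfl⟩
        · exact (hB.mem t ht).2 (h2.symm.trans h1)
        · have : t = C.tile e := hB.inj t ht _ ((hφ e).1 he) (by rw [← h2, h1, C.base_tile])
          exact C.π_ne e (this ▸ h2)
      obtain ⟨e, rfl⟩ := key t ht h2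
      exact Or.inr ⟨e, (hφ e).2 ht, C.emb_inj (by rw [← C.π_tile, h1])⟩

theorem Col.cov_of_flow (C : Col) {M : ℤ} {σ : Finset ATile} {p : ℕ × ℕ} {φ : Finset Arr}
    (hB : Cov M base (C.emb p) σ) (hp : C.emb p ∈ Tri M)
    (key : ∀ t ∈ σ, C.π t ≠ base t → ∃ e, C.tile e = t) (hφ : ∀ e, e ∈ φ ↔ C.tile e ∈ σ)
    (hF : IsFlow p φ) : Cov M C.π (C.emb (0, 0)) σ := by
  -- a point that is `p` or a source is not the base of a tile with `π = base`
  have aux : ∀ t ∈ σ, C.π t = base t → ∀ s, (s = p ∨ ∃ e ∈ φ, src e = s) → base t ≠ C.emb s := by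
    intro t ht h1 s hs h2
    rcases hs with rfl | ⟨e, he, rfl⟩
    · exact (hB.mem t ht).2 h2
    · have : t = C.tile e := hB.inj t ht _ ((hφ e).1 he) (by rw [h2, C.base_tile])
      exact C.π_ne e (this ▸ h1)
  refine ⟨?_, ?_, ?_⟩
  · intro t ht
    by_cases h1 : C.π t = base t
    · rw [h1]
      exact ⟨(hB.mem t ht).1, aux t ht h1 _ ((hF.bal _).1 (Or.inl rfl))⟩
    · obtain ⟨e, rfl⟩ := key t ht h1
      rw [C.π_tile]
      refine ⟨?_, fun h => tgt_ne_zero e (C.emb_inj h)⟩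
      rcases (hF.bal (tgt e)).1 (Or.inr ⟨e, (hφ e).2 ht, rfl⟩) with h2 | ⟨e', he', h2⟩
      · rw [h2]; exact hp
      · rw [← h2, ← C.base_tile]; exact (hB.mem _ ((hφ e').1 he')).1
  · intro t ht t' ht' h
    by_cases h1 : C.π t = base t <;> by_cases h2 : C.π t' = base t'
    · exact hB.inj t ht t' ht' (by rw [← h1, ← h2, h])
    · obtain ⟨e, rfl⟩ := key t' ht' h2
      exact absurd (by rw [← h1, h, C.π_tile])
        (aux t ht h1 _ ((hF.bal (tgt e)).1 (Or.inr ⟨e, (hφ e).2 ht', rfl⟩)))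
    · obtain ⟨e, rfl⟩ := key t ht h1
      exact absurd (by rw [← h2, ← h, C.π_tile])
        (aux t' ht' h2 _ ((hF.bal (tgt e)).1 (Or.inr ⟨e, (hφ e).2 ht, rfl⟩)))
    · obtain ⟨e, rfl⟩ := key t ht h1
      obtain ⟨e', rfl⟩ := key t' ht' h2
      rw [C.π_tile, C.π_tile] at h
      rw [hF.inU e ((hφ e).2 ht) e' ((hφ e').2 ht') (C.emb_inj h)]
  · intro a ha h0
    have aux2 : ∀ s, C.emb s = a → (s = p ∨ ∃ e ∈ φ, src e = s) → ∃ t ∈ σ, C.π t = a := by
      intro s h1 hs
      rcases (hF.bal s).2 hs with rfl | ⟨e, he, rfl⟩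
      · exact absurd h1.symm h0
      · exact ⟨_, (hφ e).1 he, by rw [C.π_tile, h1]⟩
    by_cases hap : a = C.emb p
    · exact aux2 p hap.symm (Or.inl rfl)
    obtain ⟨t, ht, h1⟩ := hB.sur a ha hap
    by_cases h2 : C.π t = base t
    · exact ⟨t, ht, h2.trans h1⟩
    · obtain ⟨e, rfl⟩ := key t ht h2
      exact aux2 (src e) (by rw [← C.base_tile, h1]) (Or.inr ⟨e, (hφ e).2 ht, rfl⟩)

def embX (s : ℕ × ℕ) : Pt := (s.2, s.1)
def embY (M : ℤ) (s : ℕ × ℕ) : Pt := (s.1, M - s.1 - s.2)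
def embZ (M : ℤ) (s : ℕ × ℕ) : Pt := (M - s.1 - s.2, s.2)

theorem embX_inj : Function.Injective embX := by
  rintro ⟨a, b⟩ ⟨c, d⟩ h
  simp only [embX, Prod.mk.injEq] at h ⊢; omega

theorem embY_inj (M : ℤ) : Function.Injective (embY M) := by
  rintro ⟨a, b⟩ ⟨c, d⟩ h
  simp only [embY, Prod.mk.injEq] at h ⊢; omega

theorem embZ_inj (M : ℤ) : Function.Injective (embZ M) := by
  rintro ⟨a, b⟩ ⟨c, d⟩ h
  simp only [embZ, Prod.mk.injEq] at h ⊢; omega

def tX (e : Arr) : ATile := (embX (tgt e), embX (src e), embX (src e))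
def tY (M : ℤ) (e : Arr) : ATile := (embY M (src e), embY M (tgt e), embY M (src e))
def tZ (M : ℤ) (e : Arr) : ATile := (embZ M (src e), embZ M (src e), embZ M (tgt e))

theorem base_tX (e : Arr) : base (tX e) = embX (src e) := by
  unfold base tX; split_ifs with h
  · exact h
  · rfl

theorem base_tY (M : ℤ) (e : Arr) : base (tY M e) = embY M (src e) := by
  unfold base tY; split_ifs <;> rfl

theorem base_tZ (M : ℤ) (e : Arr) : base (tZ M e) = embZ M (src e) := by
  unfold base tZ; rw [if_pos rfl]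

theorem base_diag (S : Pt) : base (S, S, S) = S := by simp [base]

def colX : Col := ⟨pX, embX, tX, embX_inj, fun _ => rfl, base_tX⟩
def colY (M : ℤ) : Col := ⟨pY, embY M, tY M, embY_inj M, fun _ => rfl, base_tY M⟩
def colZ (M : ℤ) : Col := ⟨pZ, embZ M, tZ M, embZ_inj M, fun _ => rfl, base_tZ M⟩

def Kind (M : ℤ) (t : ATile) : Prop :=
  (∃ e, tX e = t) ∨ (∃ e, tY M e = t) ∨ (∃ e, tZ M e = t) ∨ ∃ S, (S, S, S) = t

theorem Kind.keyX {M : ℤ} {t : ATile} (h : Kind M t) (h1 : pX t ≠ base t) : ∃ e, tX e = t := by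
  rcases h with h | ⟨e, rfl⟩ | ⟨e, rfl⟩ | ⟨S, rfl⟩
  · exact h
  · exact absurd (base_tY M e).symm h1
  · exact absurd (base_tZ M e).symm h1
  · exact absurd (base_diag S).symm h1

theorem Kind.keyY {M : ℤ} {t : ATile} (h : Kind M t) (h1 : pY t ≠ base t) : ∃ e, tY M e = t := by
  rcases h with ⟨e, rfl⟩ | h | ⟨e, rfl⟩ | ⟨S, rfl⟩
  · exact absurd (base_tX e).symm h1
  · exact h
  · exact absurd (base_tZ M e).symm h1
  · exact absurd (base_diag S).symm h1

theorem Kind.keyZ {M : ℤ} {t : ATile} (h : Kind M t) (h1 : pZ t ≠ base t) : ∃ e, tZ M e = t := by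
  rcases h with ⟨e, rfl⟩ | ⟨e, rfl⟩ | h | ⟨S, rfl⟩
  · exact absurd (base_tX e).symm h1
  · exact absurd (base_tY M e).symm h1
  · exact h
  · exact absurd (base_diag S).symm h1

theorem Kind.two {M : ℤ} {t : ATile} (h : Kind M t) :
    (pX t = base t ∧ pY t = base t) ∨ (pX t = base t ∧ pZ t = base t) ∨
      (pY t = base t ∧ pZ t = base t) := by
  rcases h with ⟨e, rfl⟩ | ⟨e, rfl⟩ | ⟨e, rfl⟩ | ⟨S, rfl⟩
  · exact Or.inr (Or.inr ⟨(base_tX e).symm, (base_tX e).symm⟩)
  · exact Or.inr (Or.inl ⟨(base_tY M e).symm, (base_tY M e).symm⟩)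
  · exact Or.inl ⟨(base_tZ M e).symm, (base_tZ M e).symm⟩
  · exact Or.inl ⟨(base_diag S).symm, (base_diag S).symm⟩

theorem Kind.pat {M : ℤ} {t : ATile} (h : Kind M t) : Pat t := by
  rcases h with ⟨⟨k, a, b⟩, rfl⟩ | ⟨⟨k, a, b⟩, rfl⟩ | ⟨⟨k, a, b⟩, rfl⟩ | ⟨S, rfl⟩
  · cases k <;>
      simp [Pat, StonePat, RPat, LPat, BonePat, Sh, tX, embX, src, tgt] <;> omega
  · cases k <;>
      simp [Pat, StonePat, RPat, LPat, BonePat, Sh, tY, embY, src, tgt] <;> omega
  · cases k <;>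
      simp [Pat, StonePat, RPat, LPat, BonePat, Sh, tZ, embZ, src, tgt] <;> omega
  · simp [Pat, StonePat, RPat, Sh]

theorem kind_of {M : ℤ} {t : ATile} (h : Pat t) (hT : ¬ TriplePat t) (ha : t.1 ∈ Tri M)
    (hb : t.2.1 ∈ Tri M) (hc : t.2.2 ∈ Tri M) : Kind M t := by
  obtain ⟨⟨a1, a2⟩, ⟨b1, b2⟩, ⟨c1, c2⟩⟩ := t
  simp only [mem_Tri] at ha hb hc
  simp only [Pat, StonePat, RPat, LPat, BonePat] at h
  simp only [TriplePat, not_or] at hT
  obtain ⟨n1, n2, n3, n4, n5⟩ := hT
  rcases h with ((h | h | h) | h | h | h) | h | h | h | h | h | h | h | h | h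
  · refine Or.inr (Or.inr (Or.inr ⟨(a1, a2), ?_⟩))
    simp only [Sh, Prod.mk.injEq, true_and] at h ⊢; omega
  · exact absurd h n1
  · exact absurd h n2
  · refine Or.inr (Or.inl ⟨(Step.D, a1.toNat, (M - a1 - a2).toNat), ?_⟩)
    simp only [Sh, Prod.mk.injEq, tY, embY, src, tgt] at h ⊢; omega
  · refine Or.inl ⟨(Step.D, b2.toNat, b1.toNat), ?_⟩
    simp only [Sh, Prod.mk.injEq, tX, embX, src, tgt] at h ⊢; omega
  · refine Or.inr (Or.inr (Or.inl ⟨(Step.D, (M - a1 - a2).toNat, a2.toNat), ?_⟩))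
    simp only [Sh, Prod.mk.injEq, tZ, embZ, src, tgt] at h ⊢; omega
  · refine Or.inr (Or.inl ⟨(Step.A, a1.toNat, (M - a1 - a2).toNat), ?_⟩)
    simp only [Sh, Prod.mk.injEq, tY, embY, src, tgt] at h ⊢; omega
  · refine Or.inr (Or.inl ⟨(Step.B, b1.toNat, (M - a1 - a2).toNat), ?_⟩)
    simp only [Sh, Prod.mk.injEq, tY, embY, src, tgt] at h ⊢; omega
  · refine Or.inl ⟨(Step.A, b2.toNat, b1.toNat), ?_⟩
    simp only [Sh, Prod.mk.injEq, tX, embX, src, tgt] at h ⊢; omega
  · refine Or.inl ⟨(Step.B, a2.toNat, b1.toNat), ?_⟩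
    simp only [Sh, Prod.mk.injEq, tX, embX, src, tgt] at h ⊢; omega
  · refine Or.inr (Or.inr (Or.inl ⟨(Step.A, (M - a1 - a2).toNat, a2.toNat), ?_⟩))
    simp only [Sh, Prod.mk.injEq, tZ, embZ, src, tgt] at h ⊢; omega
  · refine Or.inr (Or.inr (Or.inl ⟨(Step.B, (M - c1 - c2).toNat, a2.toNat), ?_⟩))
    simp only [Sh, Prod.mk.injEq, tZ, embZ, src, tgt] at h ⊢; omega
  · exact absurd h n3
  · exact absurd h n4
  · exact absurd h n5

theorem ATiling.kind {M : ℤ} (hM : 0 ≤ M) {σ : Finset ATile} (h : ATiling M σ) :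
    ∀ t ∈ σ, Kind M t := fun t ht =>
  kind_of (h.pat t ht) (no_triple hM h ht) (h.covX.mem t ht).1 (h.covY.mem t ht).1
    (h.covZ.mem t ht).1

theorem ATiling.card {M : ℤ} (hM : 0 ≤ M) {σ : Finset ATile} (h : ATiling M σ) :
    σ.card + 1 = (Tri M).card := by
  have := h.covX.sum_eq (mem_Tri.2 (by simp only; omega)) (fun _ => 1)
  simp only [sum_const, nsmul_eq_mul, mul_one] at this
  omega

theorem ATiling.exists_sink {M : ℤ} (hM : 0 ≤ M) {σ : Finset ATile} (h : ATiling M σ) :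
    ∃ P ∈ Tri M, Cov M base P σ := by
  have hk := h.kind hM
  have hinj : ∀ t ∈ σ, ∀ t' ∈ σ, base t = base t' → t = t' := by
    intro t ht t' ht' he
    rcases (hk t ht).two with h1 | h1 | h1 <;> rcases (hk t' ht').two with h2 | h2 | h2 <;>
      first
        | exact h.covX.inj t ht t' ht' (by rw [h1.1, h2.1, he])
        | exact h.covY.inj t ht t' ht' (by rw [h1.1, h2.1, he])
        | exact h.covY.inj t ht t' ht' (by rw [h1.2, h2.1, he])
        | exact h.covY.inj t ht t' ht' (by rw [h1.1, h2.2, he])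
        | exact h.covZ.inj t ht t' ht' (by rw [h1.2, h2.2, he])
  have hmem : ∀ t ∈ σ, base t ∈ Tri M := by
    intro t ht
    rcases (hk t ht).two with h1 | h1 | h1
    · exact h1.1 ▸ (h.covX.mem t ht).1
    · exact h1.1 ▸ (h.covX.mem t ht).1
    · exact h1.1 ▸ (h.covY.mem t ht).1
  have hsub : σ.image base ⊆ Tri M := image_subset_iff.2 hmem
  have hcard : (Tri M \ σ.image base).card = 1 := by
    rw [card_sdiff_of_subset hsub, card_image_of_injOn hinj, ← h.card hM]
    omega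
  obtain ⟨P, hP⟩ := card_eq_one.1 hcard
  have hP' : ∀ a, (a ∈ Tri M ∧ a ∉ σ.image base) ↔ a = P := fun a => by
    rw [← mem_sdiff, hP, mem_singleton]
  refine ⟨P, ((hP' P).2 rfl).1, fun t ht => ⟨hmem t ht, fun he => ?_⟩, hinj, fun a ha hne => ?_⟩
  · exact ((hP' _).2 he).2 (mem_image_of_mem _ ht)
  · by_contra hcon
    exact hne ((hP' a).1 ⟨ha, fun h1 => hcon (mem_image.1 h1)⟩)

theorem LPat_tX {e : Arr} : LPat (tX e) ↔ e.1 = Step.D := by
  obtain ⟨k, a, b⟩ := e
  cases k <;> simp [LPat, Sh, tX, embX, src, tgt] <;> omega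

theorem LPat_tY {M : ℤ} {e : Arr} : LPat (tY M e) ↔ e.1 = Step.D := by
  obtain ⟨k, a, b⟩ := e
  cases k <;> simp [LPat, Sh, tY, embY, src, tgt] <;> omega

theorem LPat_tZ {M : ℤ} {e : Arr} : LPat (tZ M e) ↔ e.1 = Step.D := by
  obtain ⟨k, a, b⟩ := e
  cases k <;> simp [LPat, Sh, tZ, embZ, src, tgt] <;> omega

theorem not_LPat_diag {S : Pt} : ¬ LPat (S, S, S) := by
  simp [LPat, Sh]

/-- The number of stones in terms of the number of left stones. -/
theorem ATiling.stones {M : ℕ} {σ : Finset ATile} (h : ATiling M σ) :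
    (σ.filter StonePat).card + (3 * M + 1) = (Tri M).card + 2 * (σ.filter LPat).card := by
  have hM : (0 : ℤ) ≤ M := Int.natCast_nonneg M
  have h1 := h.sum3 hM (fun p => 2 * p.1 + p.2) (fun p => -p.1 - 2 * p.2) (fun p => p.2 - p.1)
    (fun a _ => by ring)
  have h2 : ∑ t ∈ σ, ((if StonePat t then (1 : ℤ) else 0) +
      ((2 * (pX t).1 + (pX t).2) + (-(pY t).1 - 2 * (pY t).2) + ((pZ t).2 - (pZ t).1))) =
      ∑ t ∈ σ, (1 + 2 * if LPat t then (1 : ℤ) else 0) := by
    refine sum_congr rfl fun t ht => ?_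
    have hp := h.pat t ht
    have hT := no_triple hM h ht
    obtain ⟨⟨a1, a2⟩, ⟨b1, b2⟩, ⟨c1, c2⟩⟩ := t
    simp only [Pat, StonePat, RPat, LPat, BonePat, TriplePat, Sh, pX, pY, pZ] at hp hT ⊢
    rcases hp with ((h | h | h) | h | h | h) | h | h | h | h | h | h | h | h | h <;>
      (obtain ⟨rfl, rfl, rfl, rfl⟩ := h; simp at hT ⊢ <;> omega)
  rw [sum_add_distrib, h1, sum_add_distrib, ← mul_sum, sum_boole, sum_boole] at h2
  have h3 := h.card hM
  have e1 : (σ.filter fun x => StonePat x) = σ.filter StonePat := rfl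
  have e2 : (σ.filter fun x => LPat x) = σ.filter LPat := rfl
  simp only [sum_const, nsmul_eq_mul, mul_one, e1, e2] at h2
  omega

end Pool.Agent.Work.MP_70ae0e_co
end

-- merged part: Pool.Agent.Work.MP_70ae0e_co.Bij
section
/-! Abstract tilings are triples of paths with a common end and disjoint sources. -/

namespace Pool.Agent.Work.MP_70ae0e_co

open Finset

def TriN (M : ℕ) : Finset (ℕ × ℕ) :=
  (range (M + 1) ×ˢ range (M + 1)).filter (fun P => P.1 + P.2 ≤ M)

theorem mem_TriN {M : ℕ} {P : ℕ × ℕ} : P ∈ TriN M ↔ P.1 + P.2 ≤ M := by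
  simp only [TriN, mem_filter, mem_product, mem_range]; omega

abbrev Trip : Type := Finset Arr × Finset Arr × Finset Arr

def Compat (M : ℤ) (Φ : Trip) : Prop :=
  (∀ e ∈ Φ.1, ∀ e' ∈ Φ.2.1, embX (src e) ≠ embY M (src e')) ∧
  (∀ e ∈ Φ.2.1, ∀ e' ∈ Φ.2.2, embY M (src e) ≠ embZ M (src e')) ∧
  (∀ e ∈ Φ.2.2, ∀ e' ∈ Φ.1, embZ M (src e) ≠ embX (src e'))

def ptX (P : ℕ × ℕ) : ℕ × ℕ := (P.2, P.1)
def ptY (M : ℕ) (P : ℕ × ℕ) : ℕ × ℕ := (P.1, M - P.1 - P.2)
def ptZ (M : ℕ) (P : ℕ × ℕ) : ℕ × ℕ := (M - P.1 - P.2, P.2)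
def toPt (P : ℕ × ℕ) : Pt := (P.1, P.2)

theorem emb_ptX (P : ℕ × ℕ) : embX (ptX P) = toPt P := rfl

theorem emb_ptY {M : ℕ} {P : ℕ × ℕ} (h : P.1 + P.2 ≤ M) : embY M (ptY M P) = toPt P := by
  simp only [embY, ptY, toPt, Prod.mk.injEq, true_and]; omega

theorem emb_ptZ {M : ℕ} {P : ℕ × ℕ} (h : P.1 + P.2 ≤ M) : embZ M (ptZ M P) = toPt P := by
  simp only [embZ, ptZ, toPt, Prod.mk.injEq, and_true]; omega

theorem toPt_mem {M : ℕ} {P : ℕ × ℕ} (h : P.1 + P.2 ≤ M) : toPt P ∈ Tri M := by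
  simp only [mem_Tri, toPt]; omega

noncomputable def Trips (M : ℕ) (P : ℕ × ℕ) : Finset Trip :=
  Flows (ptX P) ×ˢ Flows (ptY M P) ×ˢ Flows (ptZ M P)

open Classical in
noncomputable def Conf (M : ℕ) : Finset (Σ _ : ℕ × ℕ, Trip) :=
  (TriN M).sigma fun P => (Trips M P).filter (Compat M)

structure IsConf (M : ℕ) (P : ℕ × ℕ) (Φ : Trip) : Prop where
  hP : P.1 + P.2 ≤ M
  fX : IsFlow (ptX P) Φ.1
  fY : IsFlow (ptY M P) Φ.2.1
  fZ : IsFlow (ptZ M P) Φ.2.2
  compat : Compat M Φ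

theorem mem_Conf {M : ℕ} {c : Σ _ : ℕ × ℕ, Trip} : c ∈ Conf M ↔ IsConf M c.1 c.2 := by
  classical
  simp only [Conf, Trips, mem_sigma, mem_TriN, mem_filter, mem_product, mem_Flows]
  exact ⟨fun ⟨a, ⟨b, c, d⟩, e⟩ => ⟨a, b, c, d, e⟩, fun ⟨a, b, c, d, e⟩ => ⟨a, ⟨b, c, d⟩, e⟩⟩

def Free (M : ℤ) (P : ℕ × ℕ) (Φ : Trip) (S : Pt) : Prop :=
  S ≠ toPt P ∧ (∀ e ∈ Φ.1, embX (src e) ≠ S) ∧ (∀ e ∈ Φ.2.1, embY M (src e) ≠ S) ∧
    ∀ e ∈ Φ.2.2, embZ M (src e) ≠ S

open Classical in
noncomputable def build (M : ℤ) (P : ℕ × ℕ) (Φ : Trip) : Finset ATile :=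
  Φ.1.image tX ∪ Φ.2.1.image (tY M) ∪ Φ.2.2.image (tZ M) ∪
    ((Tri M).filter (Free M P Φ)).image (fun S => (S, S, S))

theorem mem_build {M : ℤ} {P : ℕ × ℕ} {Φ : Trip} {t : ATile} :
    t ∈ build M P Φ ↔ (∃ e ∈ Φ.1, tX e = t) ∨ (∃ e ∈ Φ.2.1, tY M e = t) ∨
      (∃ e ∈ Φ.2.2, tZ M e = t) ∨ ∃ S, S ∈ Tri M ∧ Free M P Φ S ∧ (S, S, S) = t := by
  classical
  simp only [build, mem_union, mem_image, mem_filter, or_assoc, and_assoc]

theorem build_kind {M : ℤ} {P : ℕ × ℕ} {Φ : Trip} : ∀ t ∈ build M P Φ, Kind M t := by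
  intro t ht
  rcases mem_build.1 ht with ⟨e, -, h⟩ | ⟨e, -, h⟩ | ⟨e, -, h⟩ | ⟨S, -, -, h⟩
  · exact Or.inl ⟨e, h⟩
  · exact Or.inr (Or.inl ⟨e, h⟩)
  · exact Or.inr (Or.inr (Or.inl ⟨e, h⟩))
  · exact Or.inr (Or.inr (Or.inr ⟨S, h⟩))

theorem tX_ne_tY (M : ℤ) (e e' : Arr) : tX e ≠ tY M e' := fun h =>
  colX.π_ne e (by change pX (tX e) = base (tX e); rw [h]; exact (base_tY M e').symm)

theorem tX_ne_tZ (M : ℤ) (e e' : Arr) : tX e ≠ tZ M e' := fun h =>
  colX.π_ne e (by change pX (tX e) = base (tX e); rw [h]; exact (base_tZ M e').symm)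

theorem tY_ne_tZ (M : ℤ) (e e' : Arr) : tY M e ≠ tZ M e' := fun h =>
  (colY M).π_ne e (by change pY (tY M e) = base (tY M e); rw [h]; exact (base_tZ M e').symm)

theorem tX_ne_diag (e : Arr) (S : Pt) : tX e ≠ (S, S, S) := fun h =>
  colX.π_ne e (by change pX (tX e) = base (tX e); rw [h]; exact (base_diag S).symm)

theorem tY_ne_diag (M : ℤ) (e : Arr) (S : Pt) : tY M e ≠ (S, S, S) := fun h =>
  (colY M).π_ne e (by change pY (tY M e) = base (tY M e); rw [h]; exact (base_diag S).symm)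

theorem tZ_ne_diag (M : ℤ) (e : Arr) (S : Pt) : tZ M e ≠ (S, S, S) := fun h =>
  (colZ M).π_ne e (by change pZ (tZ M e) = base (tZ M e); rw [h]; exact (base_diag S).symm)

theorem tX_inj : Function.Injective tX := colX.tile_inj
theorem tY_inj (M : ℤ) : Function.Injective (tY M) := (colY M).tile_inj
theorem tZ_inj (M : ℤ) : Function.Injective (tZ M) := (colZ M).tile_inj

theorem tX_mem_build {M : ℤ} {P : ℕ × ℕ} {Φ : Trip} {e : Arr} :
    e ∈ Φ.1 ↔ tX e ∈ build M P Φ := by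
  rw [mem_build]
  refine ⟨fun h => Or.inl ⟨e, h, rfl⟩, ?_⟩
  rintro (⟨e', h1, h⟩ | ⟨e', -, h⟩ | ⟨e', -, h⟩ | ⟨S, -, -, h⟩)
  · exact colX.tile_inj h ▸ h1
  · exact absurd h.symm (tX_ne_tY M _ _)
  · exact absurd h.symm (tX_ne_tZ M _ _)
  · exact absurd h.symm (tX_ne_diag _ _)

theorem tY_mem_build {M : ℤ} {P : ℕ × ℕ} {Φ : Trip} {e : Arr} :
    e ∈ Φ.2.1 ↔ tY M e ∈ build M P Φ := by
  rw [mem_build]
  refine ⟨fun h => Or.inr (Or.inl ⟨e, h, rfl⟩), ?_⟩
  rintro (⟨e', -, h⟩ | ⟨e', h1, h⟩ | ⟨e', -, h⟩ | ⟨S, -, -, h⟩)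
  · exact absurd h (tX_ne_tY M _ _)
  · exact (colY M).tile_inj h ▸ h1
  · exact absurd h.symm (tY_ne_tZ M _ _)
  · exact absurd h.symm (tY_ne_diag M _ _)

theorem tZ_mem_build {M : ℤ} {P : ℕ × ℕ} {Φ : Trip} {e : Arr} :
    e ∈ Φ.2.2 ↔ tZ M e ∈ build M P Φ := by
  rw [mem_build]
  refine ⟨fun h => Or.inr (Or.inr (Or.inl ⟨e, h, rfl⟩)), ?_⟩
  rintro (⟨e', -, h⟩ | ⟨e', -, h⟩ | ⟨e', h1, h⟩ | ⟨S, -, -, h⟩)
  · exact absurd h (tX_ne_tZ M _ _)
  · exact absurd h (tY_ne_tZ M _ _)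
  · exact (colZ M).tile_inj h ▸ h1
  · exact absurd h.symm (tZ_ne_diag M _ _)

theorem IsConf.cov_base {M : ℕ} {P : ℕ × ℕ} {Φ : Trip} (h : IsConf M P Φ) :
    Cov M base (toPt P) (build M P Φ) := by
  have hP := h.hP
  refine ⟨?_, ?_, ?_⟩
  · intro t ht
    rcases mem_build.1 ht with ⟨e, he, rfl⟩ | ⟨e, he, rfl⟩ | ⟨e, he, rfl⟩ | ⟨S, h1, h2, rfl⟩
    · rw [base_tX]
      have := IsFlow.quad _ le_rfl h.fX e he
      refine ⟨?_, fun h1 => h.fX.notSrc e he (embX_inj (h1.trans (emb_ptX P).symm))⟩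
      simp only [mem_Tri, embX, ptX] at this ⊢; omega
    · rw [base_tY]
      have := IsFlow.quad _ le_rfl h.fY e he
      refine ⟨?_, fun h1 => h.fY.notSrc e he (embY_inj _ (h1.trans (emb_ptY hP).symm))⟩
      simp only [mem_Tri, embY, ptY] at this ⊢; omega
    · rw [base_tZ]
      have := IsFlow.quad _ le_rfl h.fZ e he
      refine ⟨?_, fun h1 => h.fZ.notSrc e he (embZ_inj _ (h1.trans (emb_ptZ hP).symm))⟩
      simp only [mem_Tri, embZ, ptZ] at this ⊢; omega
    · rw [base_diag]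
      exact ⟨h1, h2.1⟩
  · intro t ht t' ht' hb
    obtain ⟨c1, c2, c3⟩ := h.compat
    rcases mem_build.1 ht with ⟨e, he, rfl⟩ | ⟨e, he, rfl⟩ | ⟨e, he, rfl⟩ | ⟨S, h1, h2, rfl⟩ <;>
      rcases mem_build.1 ht' with ⟨e', he', rfl⟩ | ⟨e', he', rfl⟩ | ⟨e', he', rfl⟩ |
        ⟨S', h1', h2', rfl⟩ <;>
      simp only [base_tX, base_tY, base_tZ, base_diag] at hb
    · rw [h.fX.outU e he e' he' (embX_inj hb)]
    · exact absurd hb (c1 e he e' he')
    · exact absurd hb.symm (c3 e' he' e he)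
    · exact absurd hb (h2'.2.1 e he)
    · exact absurd hb.symm (c1 e' he' e he)
    · rw [h.fY.outU e he e' he' (embY_inj _ hb)]
    · exact absurd hb (c2 e he e' he')
    · exact absurd hb (h2'.2.2.1 e he)
    · exact absurd hb (c3 e he e' he')
    · exact absurd hb.symm (c2 e' he' e he)
    · rw [h.fZ.outU e he e' he' (embZ_inj _ hb)]
    · exact absurd hb (h2'.2.2.2 e he)
    · exact absurd hb.symm (h2.2.1 e' he')
    · exact absurd hb.symm (h2.2.2.1 e' he')
    · exact absurd hb.symm (h2.2.2.2 e' he')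
    · rw [hb]
  · intro a ha hne
    by_cases hF : Free M P Φ a
    · exact ⟨(a, a, a), mem_build.2 (Or.inr (Or.inr (Or.inr ⟨a, ha, hF, rfl⟩))), base_diag a⟩
    · simp only [Free, not_and_or, not_forall, not_not] at hF
      rcases hF with h1 | ⟨e, he, h1⟩ | ⟨e, he, h1⟩ | ⟨e, he, h1⟩
      · exact absurd h1 hne
      · exact ⟨_, tX_mem_build.1 he, (base_tX e).trans h1⟩
      · exact ⟨_, tY_mem_build.1 he, (base_tY _ e).trans h1⟩
      · exact ⟨_, tZ_mem_build.1 he, (base_tZ _ e).trans h1⟩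

theorem IsConf.atiling {M : ℕ} {P : ℕ × ℕ} {Φ : Trip} (h : IsConf M P Φ) :
    ATiling M (build M P Φ) := by
  have hB := h.cov_base
  have hP := toPt_mem h.hP
  refine ⟨fun t ht => (build_kind t ht).pat, ?_, ?_, ?_⟩
  · exact colX.cov_of_flow (p := ptX P) hB hP (fun t ht => (build_kind t ht).keyX)
      (fun e => tX_mem_build) h.fX
  · have := (colY M).cov_of_flow (p := ptY M P) (σ := build M P Φ) (M := M)
      (by change Cov _ _ (embY M _) _; rwa [emb_ptY h.hP])
      (by change embY M _ ∈ _; rwa [emb_ptY h.hP]) (fun t ht => (build_kind t ht).keyY)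
      (fun e => tY_mem_build) h.fY
    simpa [colY, embY] using this
  · have := (colZ M).cov_of_flow (p := ptZ M P) (σ := build M P Φ) (M := M)
      (by change Cov _ _ (embZ M _) _; rwa [emb_ptZ h.hP])
      (by change embZ M _ ∈ _; rwa [emb_ptZ h.hP]) (fun t ht => (build_kind t ht).keyZ)
      (fun e => tZ_mem_build) h.fZ
    simpa [colZ, embZ] using this

theorem ATiling.exists_conf {M : ℕ} {σ : Finset ATile} (h : ATiling M σ) :
    ∃ P Φ, IsConf M P Φ ∧ build M P Φ = σ := by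
  have hM : (0 : ℤ) ≤ M := Int.natCast_nonneg M
  obtain ⟨P₀, hP₀, hB⟩ := h.exists_sink hM
  have hk := h.kind hM
  obtain ⟨P, rfl, hP⟩ : ∃ P : ℕ × ℕ, toPt P = P₀ ∧ P.1 + P.2 ≤ M := by
    obtain ⟨x, y⟩ := P₀
    simp only [mem_Tri] at hP₀
    refine ⟨(x.toNat, y.toNat), ?_, ?_⟩
    · simp only [toPt, Prod.mk.injEq]; omega
    · simp only; omega
  obtain ⟨Φ, mX, mY, mZ⟩ : ∃ Φ : Trip, (∀ e, e ∈ Φ.1 ↔ tX e ∈ σ) ∧
      (∀ e, e ∈ Φ.2.1 ↔ tY M e ∈ σ) ∧ ∀ e, e ∈ Φ.2.2 ↔ tZ M e ∈ σ :=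
    ⟨(σ.preimage tX tX_inj.injOn, σ.preimage (tY M) (tY_inj M).injOn,
      σ.preimage (tZ M) (tZ_inj M).injOn), by simp, by simp, by simp⟩
  refine ⟨P, Φ, ⟨hP, ?_, ?_, ?_, ?_, ?_, ?_⟩, ?_⟩
  · exact colX.flow_of_cov (p := ptX P) hB hP₀ (mem_Tri.2 (by simp [colX, embX]))
      (fun t ht => (hk t ht).keyX) mX h.covX
  · exact (colY M).flow_of_cov (p := ptY M P) (σ := σ) (M := M)
      (by change Cov _ _ (embY M _) _; rwa [emb_ptY hP])
      (by change embY M _ ∈ _; rwa [emb_ptY hP]) (mem_Tri.2 (by simp [colY, embY]))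
      (fun t ht => (hk t ht).keyY) mY (by simpa [colY, embY] using h.covY)
  · exact (colZ M).flow_of_cov (p := ptZ M P) (σ := σ) (M := M)
      (by change Cov _ _ (embZ M _) _; rwa [emb_ptZ hP])
      (by change embZ M _ ∈ _; rwa [emb_ptZ hP]) (mem_Tri.2 (by simp [colZ, embZ]))
      (fun t ht => (hk t ht).keyZ) mZ (by simpa [colZ, embZ] using h.covZ)
  · intro e he e' he' h1
    exact tX_ne_tY M e e' (hB.inj _ ((mX e).1 he) _ ((mY e').1 he')
      (by rw [base_tX, base_tY, h1]))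
  · intro e he e' he' h1
    exact tY_ne_tZ M e e' (hB.inj _ ((mY e).1 he) _ ((mZ e').1 he')
      (by rw [base_tY, base_tZ, h1]))
  · intro e he e' he' h1
    exact tX_ne_tZ M e' e (hB.inj _ ((mX e').1 he') _ ((mZ e).1 he)
      (by rw [base_tX, base_tZ, h1]))
  · ext t
    rw [mem_build]
    constructor
    · rintro (⟨e, he, rfl⟩ | ⟨e, he, rfl⟩ | ⟨e, he, rfl⟩ | ⟨S, h1, h2, rfl⟩)
      · exact (mX e).1 he
      · exact (mY e).1 he
      · exact (mZ e).1 he
      · obtain ⟨t, ht, h3⟩ := hB.sur S h1 h2.1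
        rcases hk t ht with ⟨e, rfl⟩ | ⟨e, rfl⟩ | ⟨e, rfl⟩ | ⟨S', rfl⟩
        · exact absurd ((base_tX e).symm.trans h3) (h2.2.1 e ((mX e).2 ht))
        · exact absurd ((base_tY _ e).symm.trans h3) (h2.2.2.1 e ((mY e).2 ht))
        · exact absurd ((base_tZ _ e).symm.trans h3) (h2.2.2.2 e ((mZ e).2 ht))
        · rw [base_diag] at h3
          exact h3 ▸ ht
    · intro ht
      rcases hk t ht with ⟨e, rfl⟩ | ⟨e, rfl⟩ | ⟨e, rfl⟩ | ⟨S, rfl⟩
      · exact Or.inl ⟨e, (mX e).2 ht, rfl⟩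
      · exact Or.inr (Or.inl ⟨e, (mY e).2 ht, rfl⟩)
      · exact Or.inr (Or.inr (Or.inl ⟨e, (mZ e).2 ht, rfl⟩))
      · have h1 := hB.mem _ ht
        rw [base_diag] at h1
        refine Or.inr (Or.inr (Or.inr ⟨S, h1.1, ⟨h1.2, ?_, ?_, ?_⟩, rfl⟩))
        · intro e he h2
          exact tX_ne_diag e S (hB.inj _ ((mX e).1 he) _ ht (by rw [base_tX, base_diag, h2]))
        · intro e he h2
          exact tY_ne_diag M e S (hB.inj _ ((mY e).1 he) _ ht (by rw [base_tY, base_diag, h2]))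
        · intro e he h2
          exact tZ_ne_diag M e S (hB.inj _ ((mZ e).1 he) _ ht (by rw [base_tZ, base_diag, h2]))

theorem card_L_build (M : ℤ) (P : ℕ × ℕ) (Φ : Trip) :
    ((build M P Φ).filter LPat).card = nD Φ.1 + nD Φ.2.1 + nD Φ.2.2 := by
  have : (build M P Φ).filter LPat =
      (Φ.1.filter (fun e => e.1 = Step.D)).image tX ∪
      (Φ.2.1.filter (fun e => e.1 = Step.D)).image (tY M) ∪
      (Φ.2.2.filter (fun e => e.1 = Step.D)).image (tZ M) := by
    ext t
    simp only [mem_filter, mem_build, mem_union, mem_image, or_assoc]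
    constructor
    · rintro ⟨⟨e, he, rfl⟩ | ⟨e, he, rfl⟩ | ⟨e, he, rfl⟩ | ⟨S, -, -, rfl⟩, hL⟩
      · exact Or.inl ⟨e, ⟨he, LPat_tX.1 hL⟩, rfl⟩
      · exact Or.inr (Or.inl ⟨e, ⟨he, LPat_tY.1 hL⟩, rfl⟩)
      · exact Or.inr (Or.inr ⟨e, ⟨he, LPat_tZ.1 hL⟩, rfl⟩)
      · exact absurd hL not_LPat_diag
    · rintro (⟨e, ⟨he, hD⟩, rfl⟩ | ⟨e, ⟨he, hD⟩, rfl⟩ | ⟨e, ⟨he, hD⟩, rfl⟩)
      · exact ⟨Or.inl ⟨e, he, rfl⟩, LPat_tX.2 hD⟩
      · exact ⟨Or.inr (Or.inl ⟨e, he, rfl⟩), LPat_tY.2 hD⟩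
      · exact ⟨Or.inr (Or.inr (Or.inl ⟨e, he, rfl⟩)), LPat_tZ.2 hD⟩
  rw [this, card_union_of_disjoint, card_union_of_disjoint,
    card_image_of_injective _ tX_inj, card_image_of_injective _ (tY_inj M),
    card_image_of_injective _ (tZ_inj M)]
  · rfl
  · rw [disjoint_left]
    intro t h1 h2
    obtain ⟨e, -, rfl⟩ := mem_image.1 h1
    obtain ⟨e', -, h3⟩ := mem_image.1 h2
    exact tX_ne_tY M e e' h3.symm
  · rw [disjoint_left]
    intro t h1 h2
    obtain ⟨e', -, rfl⟩ := mem_image.1 h2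
    rcases mem_union.1 h1 with h1 | h1
    · obtain ⟨e, -, h3⟩ := mem_image.1 h1
      exact tX_ne_tZ M e e' h3
    · obtain ⟨e, -, h3⟩ := mem_image.1 h1
      exact tY_ne_tZ M e e' h3

theorem sum_AT {R : Type} [CommRing R] (q : R) (M : ℕ) :
    ∑ σ ∈ AT M, q ^ (σ.filter LPat).card =
      ∑ c ∈ Conf M, wt q c.2.1 * wt q c.2.2.1 * wt q c.2.2.2 := by
  symm
  refine Finset.sum_bij (fun c _ => build M c.1 c.2) ?_ ?_ ?_ ?_
  · intro c hc
    exact mem_AT.2 (mem_Conf.1 hc).atiling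
  · rintro ⟨P, φX, φY, φZ⟩ hc ⟨P', φX', φY', φZ'⟩ hc' he
    simp only at he
    have h1 : φX = φX' := by
      ext e
      have a := tX_mem_build (M := M) (P := P) (Φ := (φX, φY, φZ)) (e := e)
      have b := tX_mem_build (M := M) (P := P') (Φ := (φX', φY', φZ')) (e := e)
      rw [he] at a
      exact a.trans b.symm
    have h2 : φY = φY' := by
      ext e
      have a := tY_mem_build (M := M) (P := P) (Φ := (φX, φY, φZ)) (e := e)
      have b := tY_mem_build (M := M) (P := P') (Φ := (φX', φY', φZ')) (e := e)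
      rw [he] at a
      exact a.trans b.symm
    have h3 : φZ = φZ' := by
      ext e
      have a := tZ_mem_build (M := M) (P := P) (Φ := (φX, φY, φZ)) (e := e)
      have b := tZ_mem_build (M := M) (P := P') (Φ := (φX', φY', φZ')) (e := e)
      rw [he] at a
      exact a.trans b.symm
    subst h1 h2 h3
    have h4 := (mem_Conf.1 hc).fX.unique (mem_Conf.1 hc').fX
    have h5 : P = P' := by
      simp only [ptX, Prod.mk.injEq] at h4
      exact Prod.ext h4.2 h4.1
    rw [h5]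
  · intro σ hσ
    obtain ⟨P, Φ, h1, h2⟩ := (mem_AT.1 hσ).exists_conf
    exact ⟨⟨P, Φ⟩, mem_Conf.2 h1, h2⟩
  · intro c _
    rw [card_L_build, pow_add, pow_add]
    rfl

theorem compat_iff {M : ℕ} {P : ℕ × ℕ} (hP : P.1 + P.2 ≤ M) {Φ : Trip}
    (fX : IsFlow (ptX P) Φ.1) (fY : IsFlow (ptY M P) Φ.2.1) (fZ : IsFlow (ptZ M P) Φ.2.2) :
    Compat M Φ ↔ ¬ (Last Step.B (ptX P) Φ.1 ∧ Last Step.A (ptY M P) Φ.2.1) ∧
      ¬ (Last Step.B (ptY M P) Φ.2.1 ∧ Last Step.A (ptZ M P) Φ.2.2) ∧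
      ¬ (Last Step.B (ptZ M P) Φ.2.2 ∧ Last Step.A (ptX P) Φ.1) := by
  refine and_congr ?_ (and_congr ?_ ?_)
  · constructor
    · rintro h ⟨⟨⟨k, a, b⟩, he, rfl, h1⟩, ⟨⟨k', a', b'⟩, he', rfl, h2⟩⟩
      refine h _ he _ he' ?_
      simp only [tgt, src, ptX, ptY, embX, embY, Prod.mk.injEq] at h1 h2 ⊢; omega
    · intro h e he e' he' h1
      have q1 := IsFlow.quad _ le_rfl fX e he
      have q2 := IsFlow.quad _ le_rfl fY e' he'
      simp only [embX, embY, Prod.mk.injEq] at h1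
      refine h ⟨q1.2.2.2 ?_, q2.2.2.1 ?_⟩ <;>
        (have := q1.2.1; have := q2.1; simp only [ptX, ptY] at *; omega)
  · constructor
    · rintro h ⟨⟨⟨k, a, b⟩, he, rfl, h1⟩, ⟨⟨k', a', b'⟩, he', rfl, h2⟩⟩
      refine h _ he _ he' ?_
      simp only [tgt, src, ptZ, ptY, embZ, embY, Prod.mk.injEq] at h1 h2 ⊢; omega
    · intro h e he e' he' h1
      have q1 := IsFlow.quad _ le_rfl fY e he
      have q2 := IsFlow.quad _ le_rfl fZ e' he'
      simp only [embZ, embY, Prod.mk.injEq] at h1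
      refine h ⟨q1.2.2.2 ?_, q2.2.2.1 ?_⟩ <;>
        (have := q1.2.1; have := q2.1; simp only [ptZ, ptY] at *; omega)
  · constructor
    · rintro h ⟨⟨⟨k, a, b⟩, he, rfl, h1⟩, ⟨⟨k', a', b'⟩, he', rfl, h2⟩⟩
      refine h _ he _ he' ?_
      simp only [tgt, src, ptX, ptZ, embX, embZ, Prod.mk.injEq] at h1 h2 ⊢; omega
    · intro h e he e' he' h1
      have q1 := IsFlow.quad _ le_rfl fZ e he
      have q2 := IsFlow.quad _ le_rfl fX e' he'
      simp only [embX, embZ, Prod.mk.injEq] at h1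
      refine h ⟨q1.2.2.2 ?_, q2.2.2.1 ?_⟩ <;>
        (have := q1.2.1; have := q2.1; simp only [ptX, ptZ] at *; omega)

/-- The summand attached to the meeting point `(x, y, z)`. -/
noncomputable def term {R : Type} [CommRing R] (q : R) (x y z : ℕ) : R :=
  sAll q (y, x) * sAll q (x, z) * sAll q (z, y) -
    sL q Step.B (y, x) * sL q Step.A (x, z) * sAll q (z, y) -
    sAll q (y, x) * sL q Step.B (x, z) * sL q Step.A (z, y) -
    sL q Step.A (y, x) * sAll q (x, z) * sL q Step.B (z, y)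

theorem sum_Conf {R : Type} [CommRing R] (q : R) (M : ℕ) :
    ∑ c ∈ Conf M, wt q c.2.1 * wt q c.2.2.1 * wt q c.2.2.2 =
      ∑ P ∈ TriN M, term q P.1 P.2 (M - P.1 - P.2) := by
  classical
  unfold Conf
  rw [sum_sigma]
  refine sum_congr rfl fun P hP => ?_
  have hP' := mem_TriN.1 hP
  change _ = sAll q (ptX P) * sAll q (ptY M P) * sAll q (ptZ M P) -
    sL q Step.B (ptX P) * sL q Step.A (ptY M P) * sAll q (ptZ M P) -
    sAll q (ptX P) * sL q Step.B (ptY M P) * sL q Step.A (ptZ M P) -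
    sL q Step.A (ptX P) * sAll q (ptY M P) * sL q Step.B (ptZ M P)
  have key : ∀ f g h : Finset Arr → R,
      (∑ φ ∈ Flows (ptX P), f φ) * (∑ φ ∈ Flows (ptY M P), g φ) * (∑ φ ∈ Flows (ptZ M P), h φ) =
        ∑ Φ ∈ Trips M P, f Φ.1 * g Φ.2.1 * h Φ.2.2 := by
    intro f g h
    unfold Trips
    rw [sum_product, mul_assoc, sum_mul_sum (Flows (ptY M P)), sum_mul]
    refine sum_congr rfl fun a _ => ?_
    rw [sum_product, mul_sum]
    refine sum_congr rfl fun b _ => ?_
    rw [mul_sum]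
    exact sum_congr rfl fun c _ => by ring
  unfold sAll sL
  rw [key, key, key, key, sum_filter, ← sum_sub_distrib, ← sum_sub_distrib, ← sum_sub_distrib]
  refine sum_congr rfl fun Φ hΦ => ?_
  simp only [Trips, mem_product, mem_Flows] at hΦ
  obtain ⟨fX, fY, fZ⟩ := hΦ
  have uX : ¬ (Last Step.A (ptX P) Φ.1 ∧ Last Step.B (ptX P) Φ.1) :=
    fun h => Step.noConfusion (fX.last_unique h.1 h.2)
  have uY : ¬ (Last Step.A (ptY M P) Φ.2.1 ∧ Last Step.B (ptY M P) Φ.2.1) :=
    fun h => Step.noConfusion (fY.last_unique h.1 h.2)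
  have uZ : ¬ (Last Step.A (ptZ M P) Φ.2.2 ∧ Last Step.B (ptZ M P) Φ.2.2) :=
    fun h => Step.noConfusion (fZ.last_unique h.1 h.2)
  rw [compat_iff hP' fX fY fZ]
  by_cases a1 : Last Step.A (ptX P) Φ.1 <;> by_cases a2 : Last Step.B (ptX P) Φ.1 <;>
    by_cases a3 : Last Step.A (ptY M P) Φ.2.1 <;> by_cases a4 : Last Step.B (ptY M P) Φ.2.1 <;>
    by_cases a5 : Last Step.A (ptZ M P) Φ.2.2 <;> by_cases a6 : Last Step.B (ptZ M P) Φ.2.2 <;>
    simp [a1, a2, a3, a4, a5, a6] at uX uY uZ ⊢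

end Pool.Agent.Work.MP_70ae0e_co
end

-- merged part: Pool.Agent.Work.MP_70ae0e_co.Per
section
/-! Periodicity modulo powers of two. -/

namespace Pool.Agent.Work.MP_70ae0e_co

open Finset

variable {R : Type} [CommRing R]

theorem per_mul {α : Type} {f : ℕ → α} {p t : ℕ} (h : ∀ x, t ≤ x → f (x + p) = f x) (c : ℕ) :
    ∀ x, t ≤ x → f (x + c * p) = f x := by
  induction c with
  | zero => intro x _; simp
  | succ c ih =>
    intro x hx
    rw [show x + (c + 1) * p = (x + c * p) + p by ring, h _ (by omega), ih x hx]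

def conv (F : ℕ → ℕ → R) (N : ℕ) : R := ∑ x ∈ range (N + 1), F x (N - x)

theorem conv_step {F : ℕ → ℕ → R} {p t1 t2 : ℕ} (h1 : ∀ x y, t1 ≤ x → F (x + p) y = F x y)
    (h2 : ∀ x y, t2 ≤ y → F x (y + p) = F x y) {N a : ℕ} (ha : N + 1 = a + t2) (hN : t1 ≤ a) :
    conv F (N + p) = conv F N + ∑ i ∈ range p, F (a + i) (t2 + p - 1 - i) := by
  unfold conv
  rw [show N + p + 1 = a + (p + t2) by omega, ha, sum_range_add, sum_range_add, sum_range_add]
  have e1 : ∑ x ∈ range a, F x (N + p - x) = ∑ x ∈ range a, F x (N - x) :=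
    sum_congr rfl fun x hx => by
      have := mem_range.1 hx
      rw [show N + p - x = N - x + p by omega, h2 _ _ (by omega)]
  have e2 : ∑ x ∈ range p, F (a + x) (N + p - (a + x)) =
      ∑ x ∈ range p, F (a + x) (t2 + p - 1 - x) :=
    sum_congr rfl fun x hx => by
      have := mem_range.1 hx
      rw [show N + p - (a + x) = t2 + p - 1 - x by omega]
  have e3 : ∑ x ∈ range t2, F (a + (p + x)) (N + p - (a + (p + x))) =
      ∑ x ∈ range t2, F (a + x) (N - (a + x)) :=
    sum_congr rfl fun x _ => by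
      rw [show a + (p + x) = a + x + p by omega, h1 _ _ (by omega),
        show N + p - (a + x + p) = N - (a + x) by omega]
  rw [e1, e2, e3]
  ring

theorem conv_per {F : ℕ → ℕ → R} {p t1 t2 c : ℕ} (h1 : ∀ x y, t1 ≤ x → F (x + p) y = F x y)
    (h2 : ∀ x y, t2 ≤ y → F x (y + p) = F x y) (hc : (c : R) = 0) (N : ℕ)
    (hN : t1 + t2 ≤ N + 1) : conv F (N + c * p) = conv F N := by
  obtain ⟨a, ha⟩ : ∃ a, N + 1 = a + t2 := ⟨N + 1 - t2, by omega⟩
  have hH : ∀ j : ℕ, ∑ i ∈ range p, F (a + j * p + i) (t2 + p - 1 - i) =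
      ∑ i ∈ range p, F (a + i) (t2 + p - 1 - i) := fun j =>
    sum_congr rfl fun i _ => by
      rw [show a + j * p + i = a + i + j * p by ring]
      exact per_mul (f := fun x => F x (t2 + p - 1 - i)) (fun x hx => h1 x _ hx) j _ (by omega)
  have key : ∀ j : ℕ, conv F (N + j * p) =
      conv F N + j * ∑ i ∈ range p, F (a + i) (t2 + p - 1 - i) := by
    intro j
    induction j with
    | zero => simp
    | succ j ih =>
      rw [show N + (j + 1) * p = N + j * p + p by ring,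
        conv_step h1 h2 (a := a + j * p) (by omega) (by omega), ih, hH]
      push_cast
      ring
  rw [key, hc, zero_mul, add_zero]

def conv3 (F : ℕ → ℕ → ℕ → R) (N : ℕ) : R := conv (fun x r => conv (F x) r) N

theorem conv3_per {F : ℕ → ℕ → ℕ → R} {p t1 t2 t3 c : ℕ}
    (h1 : ∀ x y z, t1 ≤ x → F (x + p) y z = F x y z)
    (h2 : ∀ x y z, t2 ≤ y → F x (y + p) z = F x y z)
    (h3 : ∀ x y z, t3 ≤ z → F x y (z + p) = F x y z) (hc : (c : R) = 0) (ht : 1 ≤ t2) (N : ℕ)
    (hN : t1 + t2 + t3 ≤ N + 2) : conv3 F (N + c * (c * p)) = conv3 F N := by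
  refine conv_per (t1 := t1) (t2 := t2 + t3 - 1) ?_ ?_ hc N (by omega)
  · intro x r hx
    exact sum_congr rfl fun y _ =>
      per_mul (f := fun x => F x y (r - y)) (fun x hx => h1 x _ _ hx) c x hx
  · intro x r hr
    exact conv_per (h2 x) (h3 x) hc r (by omega)

theorem sum_TriN (F : ℕ → ℕ → ℕ → R) (M : ℕ) :
    ∑ P ∈ TriN M, F P.1 P.2 (M - P.1 - P.2) = conv3 F M := by
  unfold TriN conv3 conv
  rw [sum_filter, sum_product]
  refine sum_congr rfl fun x hx => ?_
  have := mem_range.1 hx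
  rw [← sum_filter]
  refine sum_congr ?_ fun _ _ => rfl
  ext y
  simp only [mem_filter, mem_range]
  omega

theorem choose_per {c : ℕ} (hc : (c : R) = 0) (k : ℕ) :
    ∀ a, (((a + c ^ k).choose k : ℕ) : R) = (a.choose k : ℕ) := by
  induction k with
  | zero => simp
  | succ k ih =>
    have hd : ∀ a, (((a + c ^ k).choose (k + 1) : ℕ) : R) =
        (a.choose (k + 1) : ℕ) + (((c ^ k).choose (k + 1) : ℕ) : R) := by
      intro a
      induction a with
      | zero => simp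
      | succ a iha =>
        rw [show a + 1 + c ^ k = (a + c ^ k) + 1 by ring, Nat.choose_succ_succ',
          Nat.choose_succ_succ', Nat.cast_add, Nat.cast_add, ih, iha]
        ring
    have key : ∀ j a : ℕ, (((a + j * c ^ k).choose (k + 1) : ℕ) : R) =
        (a.choose (k + 1) : ℕ) + j * (((c ^ k).choose (k + 1) : ℕ) : R) := by
      intro j a
      induction j with
      | zero => simp
      | succ j ihj =>
        rw [show a + (j + 1) * c ^ k = (a + j * c ^ k) + c ^ k by ring, hd, ihj]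
        push_cast
        ring
    intro a
    rw [pow_succ', key, hc, zero_mul, add_zero]

theorem Dl_per {c : ℕ} (hc : (c : R) = 0) (q : R) (K a b : ℕ) :
    Dl q (K + 1) (a + c ^ K) b = Dl q (K + 1) a b := by
  refine sum_congr rfl fun k hk => ?_
  have hk' := mem_range.1 hk
  have := per_mul (f := fun a => ((a.choose k : ℕ) : R)) (t := 0)
    (fun x _ => choose_per hc k x) (c ^ (K - k)) a (Nat.zero_le _)
  rw [← pow_add, show K - k + k = K by omega] at this
  rw [this]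

theorem Dl_per' {c : ℕ} (hc : (c : R) = 0) (q : R) (K a b : ℕ) :
    Dl q (K + 1) a (b + c ^ K) = Dl q (K + 1) a b := by
  rw [Dl_comm, Dl_per hc, Dl_comm]

section

variable {c K : ℕ} (hc : (c : R) = 0) {q : R} (hK : (1 + q) ^ (K + 1) = 0)
include hc hK

theorem sAll_per1 (h u : ℕ) : sAll q (h + c ^ K, u) = sAll q (h, u) := by
  cases u with
  | zero => rw [sAll_h0, sAll_h0]
  | succ u =>
    rw [sAll_closed q hK, sAll_closed q hK, show h + c ^ K + u + 1 = h + u + 1 + c ^ K by ring,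
      show h + c ^ K + u + 2 = h + u + 2 + c ^ K by ring, Dl_per hc, Dl_per hc]

theorem sAll_per2 (h u : ℕ) (hu : 1 ≤ u) : sAll q (h, u + c ^ K) = sAll q (h, u) := by
  obtain ⟨u, rfl⟩ : ∃ v, u = v + 1 := ⟨u - 1, by omega⟩
  rw [show u + 1 + c ^ K = (u + c ^ K) + 1 by ring, sAll_closed q hK, sAll_closed q hK,
    show h + (u + c ^ K) + 1 = h + u + 1 + c ^ K by ring,
    show h + (u + c ^ K) + 2 = h + u + 2 + c ^ K by ring,
    show u + c ^ K + 1 = u + 1 + c ^ K by ring, Dl_per hc, Dl_per hc, Dl_per' hc, Dl_per' hc]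

theorem sA_per1 (h u : ℕ) (hh : 1 ≤ h) : sL q Step.A (h + c ^ K, u) = sL q Step.A (h, u) := by
  obtain ⟨h, rfl⟩ : ∃ v, h = v + 1 := ⟨h - 1, by omega⟩
  rw [show h + 1 + c ^ K = (h + c ^ K) + 1 by ring, sL_A_succ, sL_A_succ, sAll_per1 hc hK]

theorem sA_per2 (h u : ℕ) (hu : 1 ≤ u) : sL q Step.A (h, u + c ^ K) = sL q Step.A (h, u) := by
  cases h with
  | zero => rw [sL_A_zero, sL_A_zero]
  | succ h => rw [sL_A_succ, sL_A_succ, sAll_per2 hc hK _ _ hu]

theorem sB_per1 (h u : ℕ) : sL q Step.B (h + c ^ K, u) = sL q Step.B (h, u) := by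
  cases u with
  | zero => rw [sL_B_zero, sL_B_zero]
  | succ u =>
    rw [sL_B_succ, sL_B_succ, show h + c ^ K + 1 = h + 1 + c ^ K by ring, sAll_per1 hc hK]

theorem sB_per2 (h u : ℕ) (hu : 2 ≤ u) : sL q Step.B (h, u + c ^ K) = sL q Step.B (h, u) := by
  obtain ⟨u, rfl⟩ : ∃ v, u = v + 1 := ⟨u - 1, by omega⟩
  rw [show u + 1 + c ^ K = (u + c ^ K) + 1 by ring, sL_B_succ, sL_B_succ,
    sAll_per2 hc hK _ _ (by omega)]

theorem term_per (N : ℕ) (hN : 2 ≤ N) :
    conv3 (term q) (N + c * (c * c ^ K)) = conv3 (term q) N := by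
  have split : ∀ M, conv3 (term q) M =
      conv3 (fun x y z => sAll q (y, x) * sAll q (x, z) * sAll q (z, y)) M -
      conv3 (fun x y z => sL q Step.B (y, x) * sL q Step.A (x, z) * sAll q (z, y)) M -
      conv3 (fun x y z => sAll q (y, x) * sL q Step.B (x, z) * sL q Step.A (z, y)) M -
      conv3 (fun x y z => sL q Step.A (y, x) * sAll q (x, z) * sL q Step.B (z, y)) M := by
    intro M
    simp only [← sum_TriN, term, sum_sub_distrib]
  rw [split, split,
    conv3_per (t1 := 1) (t2 := 1) (t3 := 1)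
      (fun x y z h => by rw [sAll_per1 hc hK, sAll_per2 hc hK _ _ h])
      (fun x y z h => by rw [sAll_per1 hc hK, sAll_per2 hc hK _ _ h])
      (fun x y z h => by rw [sAll_per1 hc hK, sAll_per2 hc hK _ _ h]) hc le_rfl N (by omega),
    conv3_per (t1 := 2) (t2 := 1) (t3 := 1)
      (fun x y z h => by rw [sB_per2 hc hK _ _ h, sA_per1 hc hK _ _ (by omega)])
      (fun x y z h => by rw [sB_per1 hc hK, sAll_per2 hc hK _ _ h])
      (fun x y z h => by rw [sAll_per1 hc hK, sA_per2 hc hK _ _ h]) hc le_rfl N (by omega),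
    conv3_per (t1 := 1) (t2 := 1) (t3 := 2)
      (fun x y z h => by rw [sB_per1 hc hK, sAll_per2 hc hK _ _ h])
      (fun x y z h => by rw [sAll_per1 hc hK, sA_per2 hc hK _ _ h])
      (fun x y z h => by rw [sB_per2 hc hK _ _ h, sA_per1 hc hK _ _ (by omega)]) hc le_rfl N
      (by omega),
    conv3_per (t1 := 1) (t2 := 2) (t3 := 1)
      (fun x y z h => by rw [sAll_per1 hc hK, sA_per2 hc hK _ _ h])
      (fun x y z h => by rw [sB_per2 hc hK _ _ h, sA_per1 hc hK _ _ (by omega)])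
      (fun x y z h => by rw [sB_per1 hc hK, sAll_per2 hc hK _ _ h]) hc (by omega) N (by omega)]

end

theorem card_Tri (M : ℕ) : (Tri M).card = (TriN M).card := by
  symm
  refine card_bij (fun P _ => toPt P) ?_ ?_ ?_
  · intro P hP
    exact toPt_mem (mem_TriN.1 hP)
  · rintro ⟨a, b⟩ - ⟨c, d⟩ - h
    simp only [toPt, Prod.mk.injEq] at h ⊢
    omega
  · rintro ⟨x, y⟩ h
    simp only [mem_Tri] at h
    refine ⟨(x.toNat, y.toNat), mem_TriN.2 (by simp only; omega), ?_⟩
    simp only [toPt, Prod.mk.injEq]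
    omega

theorem card_Tri_per {c : ℕ} (hc : (c : R) = 0) (p N : ℕ) (hN : 1 ≤ N) :
    (((Tri ((N + c * (c * p) : ℕ) : ℤ)).card : ℕ) : R) = ((Tri (N : ℤ)).card : ℕ) := by
  have : ∀ M : ℕ, (((Tri (M : ℤ)).card : ℕ) : R) = conv3 (fun _ _ _ => (1 : R)) M := by
    intro M
    rw [card_Tri, ← sum_TriN]
    simp
  rw [this, this]
  exact conv3_per (t1 := 1) (t2 := 1) (t3 := 1) (fun _ _ _ _ => rfl) (fun _ _ _ _ => rfl)
    (fun _ _ _ _ => rfl) hc le_rfl N (by omega)

/-- The exact formula for the weighted count. -/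
theorem T3_formula (M : ℕ) :
    ((T3 (M + 2) (2 * M + 1) : ℤ) : R) * 3 ^ (3 * M + 1) =
      3 ^ (Tri (M : ℤ)).card * conv3 (term (9 : R)) M := by
  rw [T3_eq, ← sum_TriN, ← sum_Conf, ← sum_AT, mul_sum]
  push_cast
  rw [sum_mul]
  refine sum_congr rfl fun σ hσ => ?_
  rw [← pow_add, (mem_AT.1 hσ).stones, pow_add, pow_mul]
  norm_num

theorem T3_per (K : ℕ) (M : ℕ) (hM : 2 ≤ M) :
    ((T3 (((M + 2 ^ ((K + 1) * (K + 2)) : ℕ) : ℤ) + 2)
      (2 * ((M + 2 ^ ((K + 1) * (K + 2)) : ℕ) : ℤ) + 1) : ℤ) : ZMod (2 ^ (K + 1))) =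
      ((T3 (M + 2) (2 * M + 1) : ℤ) : ZMod (2 ^ (K + 1))) := by
  set c := 2 ^ (K + 1) with hcdef
  have hc : ((c : ℕ) : ZMod c) = 0 := ZMod.natCast_self c
  have hP : 2 ^ ((K + 1) * (K + 2)) = c * (c * c ^ K) := by rw [pow_mul, ← hcdef]; ring
  have hK : (1 + 9 : ZMod c) ^ (K + 1) = 0 := by
    have : (1 + 9 : ZMod c) ^ (K + 1) = ((c : ℕ) : ZMod c) * 5 ^ (K + 1) := by
      rw [hcdef]; push_cast; rw [← mul_pow]; norm_num
    rw [this, hc, zero_mul]
  have h3 : (3 : ZMod c) ^ c = 1 := by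
    have h1 : 3 ^ Nat.totient c ≡ 1 [MOD c] :=
      Nat.ModEq.pow_totient (Nat.Coprime.pow_right _ (by norm_num))
    have h2 : Nat.totient c = 2 ^ K := by
      rw [hcdef, Nat.totient_prime_pow_succ Nat.prime_two]; simp
    have h4 : (3 : ZMod c) ^ 2 ^ K = 1 := by
      have := (ZMod.natCast_eq_natCast_iff _ _ _).2 h1
      rw [h2] at this
      exact_mod_cast this
    rw [show (3 : ZMod c) ^ c = ((3 : ZMod c) ^ 2 ^ K) ^ 2 by rw [← pow_mul, ← pow_succ], h4,
      one_pow]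
  have hu : IsUnit (3 : ZMod c) := IsUnit.of_pow_eq_one h3 (by positivity)
  rw [hP]
  have e1 := T3_formula (R := ZMod c) (M + c * (c * c ^ K))
  have e2 := T3_formula (R := ZMod c) M
  have e3 : (3 : ZMod c) ^ (Tri ((M + c * (c * c ^ K) : ℕ) : ℤ)).card =
      3 ^ (Tri (M : ℤ)).card :=
    pow_eq_pow_of_modEq
      ((ZMod.natCast_eq_natCast_iff _ _ _).1 (card_Tri_per hc (c ^ K) M (by omega))) h3
  have e4 : (3 : ZMod c) ^ (3 * (M + c * (c * c ^ K)) + 1) = 3 ^ (3 * M + 1) := by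
    rw [show 3 * (M + c * (c * c ^ K)) + 1 = 3 * M + 1 + c * (3 * (c * c ^ K)) by ring, pow_add,
      pow_mul, h3, one_pow, mul_one]
  rw [e3, e4, term_per hc hK M hM, ← e2] at e1
  exact (hu.pow _).mul_right_cancel e1

theorem main (k : ℕ) (hk : 1 ≤ k) : ∃ m : ℕ, ∀ n n' : ℤ, 4 ≤ n → 4 ≤ n' → n ≡ n' [ZMOD 2 ^ m] →
    T3 n (2 * n - 3) ≡ T3 n' (2 * n' - 3) [ZMOD 2 ^ k] := by
  obtain ⟨K, rfl⟩ : ∃ K, k = K + 1 := ⟨k - 1, by omega⟩
  refine ⟨(K + 1) * (K + 2), ?_⟩
  have key : ∀ n n' : ℤ, 4 ≤ n → n ≤ n' → n ≡ n' [ZMOD 2 ^ ((K + 1) * (K + 2))] →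
      T3 n (2 * n - 3) ≡ T3 n' (2 * n' - 3) [ZMOD 2 ^ (K + 1)] := by
    intro n n' hn hle h
    obtain ⟨j, hj⟩ := h.dvd
    have hj0 : 0 ≤ j := by
      by_contra hneg
      have : (2 : ℤ) ^ ((K + 1) * (K + 2)) * j < 0 :=
        mul_neg_of_pos_of_neg (by positivity) (by omega)
      omega
    lift j to ℕ using hj0
    obtain ⟨M, rfl⟩ : ∃ M : ℕ, n = M + 2 := ⟨(n - 2).toNat, by omega⟩
    have := per_mul
      (f := fun M : ℕ => ((T3 (M + 2) (2 * M + 1) : ℤ) : ZMod (2 ^ (K + 1)))) (t := 2)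
      (fun x hx => T3_per K x hx) j M (by omega)
    have h2 : n' = ((M + j * 2 ^ ((K + 1) * (K + 2)) : ℕ) : ℤ) + 2 := by push_cast; linarith
    have h3 := (ZMod.intCast_eq_intCast_iff _ _ _).1 this.symm
    rw [h2, show 2 * ((M : ℤ) + 2) - 3 = 2 * M + 1 by ring,
      show 2 * (((M + j * 2 ^ ((K + 1) * (K + 2)) : ℕ) : ℤ) + 2) - 3 =
        2 * ((M + j * 2 ^ ((K + 1) * (K + 2)) : ℕ) : ℤ) + 1 by ring]
    exact_mod_cast h3
  intro n n' hn hn' h
  rcases le_total n n' with hle | hle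
  · exact key n n' hn hle h
  · exact (key n' n hn' hle h.symm).symm

end Pool.Agent.Work.MP_70ae0e_co
end
end
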